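import Pool.Agent.P.MP_26ce3f_co.Seg

/-! Degree two: gadgets expressing bounded systems of quadratic inequalities. -/

namespace Pool.Agent.P.MP_26ce3f_co

open Ser

/-- Letters of the gadgets. -/
inductive Ltr (V E J : Type) : Type
  | a (e : E)
  | c (e : E)
  | m (j : J)
  | A (v : V)
  | mu (v : V)
  deriving DecidableEq, Fintype

/-- Segments of the gadgets. -/
inductive Sg (V J : Type) : Type
  | box (j : J)
  | da (j : J)
  | dc (j : J)
  | ms (v : V) (b : Bool)
  deriving DecidableEq, Fintype

variable {V E J ι : Type}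

/-- Value of a literal. -/
def lit (B : ℕ) (X : V → ℕ) (v : V) (b : Bool) : ℕ := cond b (X v) (B - X v)

/-- Value of a literal or of a constant. -/
def val (B : ℕ) (X : V → ℕ) (l : Option (V × Bool)) (k : ℕ) : ℕ :=
  match l with
  | none => k
  | some (v, b) => lit B X v b

/-- Upper bound for `val`. -/
def cap (B : ℕ) (l : Option (V × Bool)) (k : ℕ) : ℕ :=
  match l with
  | none => k
  | some _ => B

theorem lit_le {B : ℕ} {X : V → ℕ} (h : ∀ v, X v ≤ B) (v : V) (b : Bool) : lit B X v b ≤ B := by
  cases b <;> simp [lit, h v]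

theorem lit_not {B : ℕ} {X : V → ℕ} (h : ∀ v, X v ≤ B) (v : V) (b : Bool) :
    lit B X v (!b) + lit B X v b = B := by
  have := h v
  cases b <;> simp [lit] <;> omega

theorem val_le {B : ℕ} {X : V → ℕ} (h : ∀ v, X v ≤ B) (l : Option (V × Bool)) (k : ℕ) :
    val B X l k ≤ cap B l k := by
  rcases l with _ | ⟨v, b⟩
  · exact le_rfl
  · exact lit_le h v b

/-- Shape of a system: each product term `j` belongs to the inequality `con j` and has two factors,
each a literal or a constant. -/
structure Shape (V E J : Type) where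
  con : J → E
  la : J → Option (V × Bool)
  lc : J → Option (V × Bool)
  dis : ∀ j v b b', la j = some (v, b) → lc j ≠ some (v, b')

variable [DecidableEq V] [DecidableEq E] [DecidableEq J] [Fintype V] [Fintype E] [Fintype J]

attribute [local instance high] instBEqOfDecidableEq

open Ltr Sg List

/-- Markers of the terms using a given literal. -/
noncomputable def mk (l : J → Option (V × Bool)) (v : V) (b : Bool) : List (Ltr V E J) :=
  (Finset.univ.filter fun j => l j = some (v, b)).toList.map m

/-- The canonical segments attached to an assignment. -/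
noncomputable def Wd (S : Shape V E J) (B : ℕ) (ka kc : J → ℕ) (X : V → ℕ) :
    Sg V J → List (Ltr V E J)
  | box j => replicate (cap B (S.lc j) (kc j) - val B X (S.lc j) (kc j)) (c (S.con j)) ++
      (replicate (val B X (S.la j) (ka j)) (a (S.con j)) ++ ([m j] ++
      (replicate (val B X (S.lc j) (kc j)) (c (S.con j)) ++
      replicate (cap B (S.la j) (ka j) - val B X (S.la j) (ka j)) (a (S.con j)))))
  | da j => match S.la j with
    | none => []
    | some (v, b) => replicate (lit B X v b) (m j) ++ ([A v, a (S.con j)] ++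
        replicate (B - lit B X v b) (m j))
  | dc j => match S.lc j with
    | none => []
    | some (v, b) => replicate (lit B X v (!b)) (m j) ++ ([c (S.con j), A v] ++
        replicate (B - lit B X v (!b)) (m j))
  | ms v b => replicate (lit B X v b) (A v) ++ ((mk S.lc v (!b) ++ ([mu v] ++ mk S.la v b)) ++
      replicate (B - lit B X v b) (A v))

/-- Letters which may occur in a segment. -/
def Al (S : Shape V E J) : Sg V J → Ltr V E J → Prop
  | box j, z => z = c (S.con j) ∨ z = a (S.con j) ∨ z = m j
  | da j, z => ∃ v b, S.la j = some (v, b) ∧ (z = m j ∨ z = A v ∨ z = a (S.con j))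
  | dc j, z => ∃ v b, S.lc j = some (v, b) ∧ (z = m j ∨ z = A v ∨ z = c (S.con j))
  | ms v b, z => z = A v ∨ z = mu v ∨
      ∃ j, z = m j ∧ (S.lc j = some (v, !b) ∨ S.la j = some (v, b))

omit [DecidableEq E] [DecidableEq J] [Fintype V] [Fintype E] in
theorem mem_mk {l : J → Option (V × Bool)} {v : V} {b : Bool} {z : Ltr V E J} :
    z ∈ mk l v b ↔ ∃ j, l j = some (v, b) ∧ m j = z := by
  simp [mk]

omit [Fintype V] [Fintype E] in
theorem count_mk (l : J → Option (V × Bool)) (v : V) (b : Bool) (z : Ltr V E J) :
    (mk l v b).count z = ∑ j, if l j = some (v, b) then (if z = m j then 1 else 0) else 0 := by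
  unfold mk
  rw [← Finset.sum_filter, ← Finset.sum_map_toList]
  generalize Finset.toList _ = l
  induction l with
  | nil => simp
  | cons j l ih =>
    rw [List.map_cons, List.map_cons, List.sum_cons, List.count_cons, ih, add_comm]
    by_cases h : z = m j
    · simp [h]
    · simp [h, Ne.symm h]

omit [Fintype V] [Fintype E] in
theorem count_mk_m (l : J → Option (V × Bool)) (v : V) (b : Bool) (j : J) :
    (mk l v b : List (Ltr V E J)).count (m j) = if l j = some (v, b) then 1 else 0 := by
  rw [count_mk, Finset.sum_eq_single j]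
  · simp
  · intro i _ hi
    simp [hi.symm]
  · simp

variable (S : Shape V E J) (B : ℕ) (ka kc : J → ℕ)

omit [DecidableEq E] [DecidableEq J] [Fintype V] [Fintype E] in
theorem al_of_mem (X : V → ℕ) (s : Sg V J) (z : Ltr V E J) (h : z ∈ Wd S B ka kc X s) :
    Al S s z := by
  cases s with
  | box j => simp only [Wd, List.mem_append, List.mem_replicate, List.mem_singleton] at h; grind [Al]
  | da j =>
    simp only [Wd] at h
    split at h
    · simp at h
    · simp only [List.mem_append, List.mem_replicate, List.mem_cons, List.not_mem_nil] at h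
      grind [Al]
  | dc j =>
    simp only [Wd] at h
    split at h
    · simp at h
    · simp only [List.mem_append, List.mem_replicate, List.mem_cons, List.not_mem_nil] at h
      grind [Al]
  | ms v b =>
    simp only [Wd, List.mem_append, List.mem_replicate, List.mem_singleton, mem_mk] at h
    grind [Al]

omit [Fintype V] [Fintype E] in
theorem wd_perm {X Y : V → ℕ} (hX : ∀ v, X v ≤ B) (hY : ∀ v, Y v ≤ B) (s : Sg V J) :
    (Wd S B ka kc X s).Perm (Wd S B ka kc Y s) := by
  rw [List.perm_iff_count]
  intro z
  cases s with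
  | box j =>
    have := val_le hX (S.la j) (ka j)
    have := val_le hX (S.lc j) (kc j)
    have := val_le hY (S.la j) (ka j)
    have := val_le hY (S.lc j) (kc j)
    simp only [Wd, List.count_append, List.count_replicate]
    split_ifs <;> omega
  | da j =>
    simp only [Wd]
    split
    · rfl
    · rename_i v b _
      have := lit_le hX v b
      have := lit_le hY v b
      simp only [List.count_append, List.count_replicate]
      split_ifs <;> omega
  | dc j =>
    simp only [Wd]
    split
    · rfl
    · rename_i v b _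
      have := lit_le hX v (!b)
      have := lit_le hY v (!b)
      simp only [List.count_append, List.count_replicate]
      split_ifs <;> omega
  | ms v b =>
    have := lit_le hX v b
    have := lit_le hY v b
    simp only [Wd, List.count_append, List.count_replicate]
    split_ifs <;> omega

section Br
variable {α : Type} [DecidableEq α]

/-- Kronecker symbol. -/
def dl (x y : α) : ℤ := if x = y then 1 else 0

/-- Coefficient of `xy` in `pq - qp`. -/
def bz (p q x y : α) : ℤ := dl x p * dl y q - dl x q * dl y p

theorem bz_swap (p q x y : α) : bz p q x y = -bz q p x y := by unfold bz; ring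

theorem ws_comm (p q x y : α) : (ws [p, q] - ws [q, p]) [x, y] = bz p q x y := by
  simp only [Ser.sub_apply, ws_apply, occ2_cons, List.count_cons, occ_nil_left, List.count_nil, bz,
    dl, beq_iff_eq]
  grind

theorem count_rep (n : ℕ) (p x : α) : ((replicate n p).count x : ℤ) = n * dl x p := by
  rw [List.count_replicate]
  by_cases h : x = p
  · simp [dl, h]
  · simp [dl, h, Ne.symm h]

theorem count_one (p x : α) : (([p] : List α).count x : ℤ) = dl x p := by
  simpa using count_rep 1 p x

theorem count_two (p q x : α) : (([p, q] : List α).count x : ℤ) = dl x p + dl x q := by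
  rw [← count_one, ← count_one, ← Nat.cast_add, ← List.count_append]; rfl

theorem dl_mul {x y : α} (h : x ≠ y) (p : α) : dl x p * dl y p = 0 := by
  unfold dl; grind

theorem sandwich {n N : ℕ} (hn : n ≤ N) (p : α) (M : List α) {x y : α} (h : x ≠ y) :
    (occ (replicate n p ++ (M ++ replicate (N - n) p)) [x, y] : ℤ) =
      occ M [x, y] + N * M.count x * dl y p + n * (dl x p * M.count y - M.count x * dl y p) := by
  simp only [occ2_append, occ2_replicate _ _ h, List.count_append]
  push_cast [count_rep, hn]
  linear_combination (n * (N - n)) * dl_mul h p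

theorem boxed {s r n N : ℕ} (hs : s ≤ r) (hn : n ≤ N) (p q z : α) {x y : α} (h : x ≠ y) :
    (occ (replicate (r - s) q ++ (replicate n p ++ ([z] ++ (replicate s q ++
      replicate (N - n) p)))) [x, y] : ℤ) =
      r * dl x q * dl y z + r * N * dl x q * dl y p + N * dl x z * dl y p +
        (n * s * bz p q x y + n * bz p z x y + s * bz z q x y) := by
  have h1 := occ2_replicate 1 z h
  simp only [List.replicate_one] at h1
  simp only [occ2_append, occ2_replicate _ _ h, List.count_append, h1, bz]
  push_cast [count_rep, count_one, hn, hs]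
  linear_combination (n * (N - n)) * dl_mul h p + (s * (r - s)) * dl_mul h q

end Br

/-- The part of the degree-two counts of a segment which depends on the assignment. -/
def Fx (X : V → ℕ) (x y : Ltr V E J) : Sg V J → ℤ
  | box j => val B X (S.la j) (ka j) * val B X (S.lc j) (kc j) * bz (a (S.con j)) (c (S.con j)) x y +
      val B X (S.la j) (ka j) * bz (a (S.con j)) (m j) x y +
      val B X (S.lc j) (kc j) * bz (m j) (c (S.con j)) x y
  | da j => match S.la j with
    | none => 0
    | some (v, b) => lit B X v b * (bz (m j) (A v) x y + bz (m j) (a (S.con j)) x y)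
  | dc j => match S.lc j with
    | none => 0
    | some (v, b) => lit B X v (!b) * (bz (m j) (A v) x y + bz (m j) (c (S.con j)) x y)
  | ms v b => lit B X v b * ((∑ j, if S.lc j = some (v, !b) then bz (A v) (m j) x y else 0) +
      bz (A v) (mu v) x y + ∑ j, if S.la j = some (v, b) then bz (A v) (m j) x y else 0)

omit [Fintype V] [Fintype E] in
theorem occ_wd {X Y : V → ℕ} (hX : ∀ v, X v ≤ B) (hY : ∀ v, Y v ≤ B) {x y : Ltr V E J}
    (h : x ≠ y) (s : Sg V J) :
    (occ (Wd S B ka kc X s) [x, y] : ℤ) - Fx S B ka kc X x y s =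
      occ (Wd S B ka kc Y s) [x, y] - Fx S B ka kc Y x y s := by
  cases s with
  | box j =>
    simp only [Wd, Fx]
    rw [boxed (val_le hX _ _) (val_le hX _ _) _ _ _ h, boxed (val_le hY _ _) (val_le hY _ _) _ _ _ h]
    ring
  | da j =>
    simp only [Wd, Fx]
    split
    · rfl
    · rw [sandwich (lit_le hX _ _) _ _ h, sandwich (lit_le hY _ _) _ _ h]
      simp only [count_two, bz]
      ring
  | dc j =>
    simp only [Wd, Fx]
    split
    · rfl
    · rw [sandwich (lit_le hX _ _) _ _ h, sandwich (lit_le hY _ _) _ _ h]
      simp only [count_two, bz]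
      ring
  | ms v b =>
    simp only [Wd, Fx]
    rw [sandwich (lit_le hX _ _) _ _ h, sandwich (lit_le hY _ _) _ _ h]
    have key : ∀ (l : J → Option (V × Bool)) (b : Bool),
        (∑ j, if l j = some (v, b) then bz (A v) (m j) x y else 0) =
          dl x (A v) * (mk l v b).count y - (mk l v b).count x * dl y (A v) := by
      intro l b
      rw [count_mk, count_mk]
      push_cast
      rw [Finset.mul_sum, Finset.sum_mul, ← Finset.sum_sub_distrib]
      refine Finset.sum_congr rfl fun j _ => ?_
      split_ifs <;> simp_all [bz, dl]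
    rw [key, key]
    simp only [List.count_append, bz]
    push_cast [count_one]
    ring

omit [DecidableEq V] [DecidableEq E] [DecidableEq J] [Fintype E] in
theorem sum_sg (f : Sg V J → ℤ) : ∑ s, f s =
    ∑ j, (f (box j) + f (da j) + f (dc j)) + ∑ v, ∑ b, f (ms v b) := by
  let e : (J ⊕ J ⊕ J ⊕ V × Bool) ≃ Sg V J :=
    { toFun := fun x => match x with
        | .inl j => box j
        | .inr (.inl j) => da j
        | .inr (.inr (.inl j)) => dc j
        | .inr (.inr (.inr p)) => ms p.1 p.2
      invFun := fun s => match s with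
        | box j => .inl j
        | da j => .inr (.inl j)
        | dc j => .inr (.inr (.inl j))
        | ms v b => .inr (.inr (.inr (v, b)))
      left_inv := by rintro (j | j | j | p) <;> rfl
      right_inv := by rintro (j | j | j | p) <;> rfl }
  rw [← e.sum_comp]
  simp only [Fintype.sum_sum_type, Fintype.sum_prod_type, Finset.sum_add_distrib, e,
    Equiv.coe_fn_mk]
  ring

omit [DecidableEq E] [DecidableEq J] [Fintype E] in
theorem sum_lit (l : J → Option (V × Bool)) (g : V → Bool → J → ℤ) :
    ∑ v, ∑ b, ∑ j, (if l j = some (v, b) then g v b j else 0) =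
      ∑ j, match l j with
        | none => 0
        | some (v, b) => g v b j := by
  rw [← Fintype.sum_prod_type', Finset.sum_comm]
  refine Finset.sum_congr rfl fun j _ => ?_
  rcases l j with _ | ⟨v, b⟩
  · simp
  · rw [Finset.sum_eq_single (v, b)]
    · simp
    · intro q _ hq
      rw [if_neg (by simpa using hq.symm)]
    · simp

omit [Fintype E] in
theorem sum_fx {X : V → ℕ} (hX : ∀ v, X v ≤ B) (x y : Ltr V E J) :
    ∑ s, Fx S B ka kc X x y s =
      ∑ j, (val B X (S.la j) (ka j) * val B X (S.lc j) (kc j) : ℕ) *
        bz (a (S.con j)) (c (S.con j)) x y +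
      (∑ j, ((match S.la j with
        | none => ka j * bz (a (S.con j)) (m j) x y
        | some _ => 0) + cap B (S.lc j) (kc j) * bz (m j) (c (S.con j)) x y) +
      ∑ v, B * bz (A v) (mu v) x y) := by
  rw [sum_sg]
  have e1 : ∑ v, ∑ b, Fx S B ka kc X x y (ms v b) =
      (∑ v, ∑ b, ∑ j, if S.lc j = some (v, b) then lit B X v (!b) * bz (A v) (m j) x y else 0) +
      (∑ v, ∑ b, ∑ j, if S.la j = some (v, b) then lit B X v b * bz (A v) (m j) x y else 0) +
      ∑ v, B * bz (A v) (mu v) x y := by
    rw [← Finset.sum_add_distrib, ← Finset.sum_add_distrib]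
    refine Finset.sum_congr rfl fun v _ => ?_
    have : (B : ℤ) = lit B X v false + lit B X v true := by exact_mod_cast (lit_not hX v true).symm
    simp only [Fx, Fintype.sum_bool, mul_add, Finset.mul_sum, mul_ite, mul_zero, Bool.not_true,
      Bool.not_false]
    rw [this]
    ring
  rw [e1, sum_lit, sum_lit, ← add_assoc, ← add_assoc, ← add_assoc, ← Finset.sum_add_distrib,
    ← Finset.sum_add_distrib, ← Finset.sum_add_distrib]
  congr 1
  refine Finset.sum_congr rfl fun j _ => ?_
  simp only [Fx]
  rcases S.la j with _ | ⟨v, b⟩ <;> rcases S.lc j with _ | ⟨v', b'⟩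
  · simp only [val, cap]; push_cast; ring
  · have : (B : ℤ) = lit B X v' (!b') + lit B X v' b' := by exact_mod_cast (lit_not hX v' b').symm
    simp only [val, cap, bz_swap (m j) (A v')]; push_cast; rw [this]; ring
  · simp only [val, cap, bz_swap (m j) (A v), bz_swap (m j) (a _)]; push_cast; ring
  · have : (B : ℤ) = lit B X v' (!b') + lit B X v' b' := by exact_mod_cast (lit_not hX v' b').symm
    simp only [val, cap, bz_swap (m j) (A _), bz_swap (m j) (a _)]; push_cast; rw [this]; ring

omit [Fintype V] [Fintype E] in
theorem occ_mk_left (l : J → Option (V × Bool)) (v : V) (b : Bool) {x : Ltr V E J} (y : Ltr V E J)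
    (h : ∀ j, m j ≠ x) : occ (mk l v b) [x, y] = 0 :=
  occ2_left _ fun hx => by
    obtain ⟨j, _, hj⟩ := mem_mk.1 hx
    exact h j hj

omit [Fintype V] [Fintype E] in
theorem occ_mk_right (l : J → Option (V × Bool)) (v : V) (b : Bool) (x : Ltr V E J) {y : Ltr V E J}
    (h : ∀ j, m j ≠ y) : occ (mk l v b) [x, y] = 0 :=
  occ2_right _ fun hx => by
    obtain ⟨j, _, hj⟩ := mem_mk.1 hx
    exact h j hj

omit [Fintype V] [Fintype E] in
theorem count_mk_zero (l : J → Option (V × Bool)) (v : V) (b : Bool) {y : Ltr V E J}
    (h : ∀ j, m j ≠ y) : (mk l v b).count y = 0 :=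
  List.count_eq_zero.2 fun hx => by
    obtain ⟨j, _, hj⟩ := mem_mk.1 hx
    exact h j hj

section Sound
variable {S B ka kc} {Y : V → ℕ} {W : Sg V J → List (Ltr V E J)}

omit [Fintype V] [Fintype E] in
theorem zero_of_not_al (hW : ∀ s, (W s).Perm (Wd S B ka kc Y s)) {s : Sg V J} {x y : Ltr V E J}
    (h : ¬ (Al S s x ∧ Al S s y)) : occ (W s) [x, y] = 0 := by
  by_contra h0
  have := ((occ_pos_iff _ _).1 (Nat.pos_of_ne_zero h0)).subset
  exact h ⟨al_of_mem S B ka kc Y s x ((hW s).subset (this (by simp))),
    al_of_mem S B ka kc Y s y ((hW s).subset (this (by simp)))⟩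

omit [Fintype E] in
theorem one_seg (hW : ∀ s, (W s).Perm (Wd S B ka kc Y s)) {x y : Ltr V E J} (s1 : Sg V J)
    (h : ∀ s, Al S s x → Al S s y → s = s1)
    (hs : ∑ s, occ (W s) [x, y] = ∑ s, occ (Wd S B ka kc Y s) [x, y]) :
    occ (W s1) [x, y] = occ (Wd S B ka kc Y s1) [x, y] := by
  rwa [Fintype.sum_eq_single s1 fun s hs => zero_of_not_al hW fun h' => hs (h s h'.1 h'.2),
    Fintype.sum_eq_single s1 fun s hs => zero_of_not_al (fun _ => List.Perm.refl _)
      fun h' => hs (h s h'.1 h'.2)] at hs

omit [Fintype E] in
theorem two_seg (hW : ∀ s, (W s).Perm (Wd S B ka kc Y s)) {x y : Ltr V E J} (s1 s2 : Sg V J)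
    (h12 : s1 ≠ s2) (h : ∀ s, Al S s x → Al S s y → s = s1 ∨ s = s2)
    (hs : ∑ s, occ (W s) [x, y] = ∑ s, occ (Wd S B ka kc Y s) [x, y]) :
    occ (W s1) [x, y] + occ (W s2) [x, y] =
      occ (Wd S B ka kc Y s1) [x, y] + occ (Wd S B ka kc Y s2) [x, y] := by
  rwa [Fintype.sum_eq_add s1 s2 h12 fun s hs => zero_of_not_al hW
      fun h' => (h s h'.1 h'.2).elim hs.1 hs.2,
    Fintype.sum_eq_add s1 s2 h12 fun s hs => zero_of_not_al (fun _ => List.Perm.refl _)
      fun h' => (h s h'.1 h'.2).elim hs.1 hs.2] at hs

omit [Fintype E] in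
theorem all_zero {x y : Ltr V E J} (h : ∀ s, occ (Wd S B ka kc Y s) [x, y] = 0)
    (hs : ∑ s, occ (W s) [x, y] = ∑ s, occ (Wd S B ka kc Y s) [x, y]) (s : Sg V J) :
    occ (W s) [x, y] = 0 := by
  simp only [h, Finset.sum_const_zero, Finset.sum_eq_zero_iff] at hs
  exact hs s (Finset.mem_univ _)

omit [Fintype E] in
theorem sound (hY : ∀ v, Y v ≤ B) (hW : ∀ s, (W s).Perm (Wd S B ka kc Y s))
    (hs : ∀ x y, (∀ e, ¬ (x = a e ∧ y = c e)) → (∀ e, ¬ (x = c e ∧ y = a e)) →
      ∑ s, occ (W s) [x, y] = ∑ s, occ (Wd S B ka kc Y s) [x, y]) :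
    ∃ X : V → ℕ, (∀ v, X v ≤ B) ∧ ∀ j, val B X (S.la j) (ka j) * val B X (S.lc j) (kc j) ≤
      occ (W (box j)) [a (S.con j), c (S.con j)] := by
  have hd := S.dis
  let X : V → ℕ := fun v => occ (W (ms v true)) [A v, mu v]
  have h0 : ∀ v, X v + occ (W (ms v false)) [A v, mu v] = B := by
    intro v
    have := two_seg hW (x := A v) (y := mu v) (ms v true) (ms v false) (by simp)
      (by rintro (i | i | i | ⟨v', _ | _⟩) <;> grind [Al]) (hs _ _ (by simp) (by simp))
    have h1 := lit_not hY v true
    simp [Wd, occ2_append, occ2_cons, occ2_replicate, occ_mk_left, count_mk_zero,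
      List.count_replicate] at this h1
    simp only [X]
    omega
  have hX : ∀ v, X v ≤ B := fun v => by have := h0 v; omega
  have hl : ∀ v b, occ (W (ms v b)) [A v, mu v] = lit B X v b := by
    intro v b
    have := h0 v
    cases b
    · simp only [lit, cond_false]; omega
    · rfl
  refine ⟨X, hX, fun j => ?_⟩
  have ha : val B X (S.la j) (ka j) ≤ occ (W (box j)) [a (S.con j), m j] := by
    rcases hj : S.la j with _ | ⟨v, b⟩
    · have := one_seg hW (x := a (S.con j)) (y := m j) (box j)
        (by intro s; cases s <;> grind [Al]) (hs _ _ (by simp) (by simp))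
      simp [Wd, hj, occ2_append, occ2_cons, occ2_replicate, List.count_replicate, val] at this
      simp [val, this]
    · have hc : ∀ b', S.lc j ≠ some (v, b') := fun b' => hd j v b b' hj
      have hb := lit_le hY v b
      have e1 := one_seg hW (x := mu v) (y := m j) (ms v b)
        (by intro s; cases s <;> grind [Al]) (hs _ _ (by simp) (by simp))
      simp [Wd, hj, hc, occ2_append, occ2_cons, occ2_replicate, occ_mk_left, count_mk_zero,
        count_mk_m, List.count_replicate] at e1
      have e2 := occ2_mul_le (w := W (ms v b)) (x := A v) (m := mu v) (y := m j)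
        (by simp [(hW _).count_eq, Wd, count_mk_zero, List.count_replicate]) (by simp) (by simp)
      have e3 := two_seg hW (x := A v) (y := m j) (ms v b) (da j) (by simp)
        (by intro s; cases s <;> grind [Al]) (hs _ _ (by simp) (by simp))
      simp [Wd, hj, hc, occ2_append, occ2_cons, occ2_replicate, occ_mk_left, count_mk_zero,
        count_mk_m, List.count_replicate] at e3
      have cA : (W (da j)).count (A v) = 1 := by
        simp [(hW _).count_eq, Wd, hj, List.count_replicate]
      have ca : (W (da j)).count (a (S.con j)) = 1 := by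
        simp [(hW _).count_eq, Wd, hj, List.count_replicate]
      have cm : (W (da j)).count (m j) = B := by
        simp [(hW _).count_eq, Wd, hj]; omega
      have e4 := all_zero (W := W) (x := a (S.con j)) (y := A v) (fun s => by
        cases s with
        | da i =>
          simp only [Wd]
          split
          · simp
          · simp [occ2_append, occ2_cons, occ2_replicate, List.count_replicate]
        | _ => exact zero_of_not_al (fun _ => List.Perm.refl _) (by grind [Al]))
        (hs _ _ (by simp) (by simp)) (da j)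
      have e5 := occ2_swap (W (da j)) (x := A v) (y := m j) (by simp)
      have e6 := occ2_swap (W (da j)) (x := A v) (y := a (S.con j)) (by simp)
      have e7 := occ2_swap (W (da j)) (x := m j) (y := a (S.con j)) (by simp)
      have e8 := occ2_mul_le (w := W (da j)) (x := m j) (m := A v) (y := a (S.con j)) cA
        (by simp) (by simp)
      have e9 := two_seg hW (x := a (S.con j)) (y := m j) (box j) (da j) (by simp)
        (by intro s; cases s <;> grind [Al]) (hs _ _ (by simp) (by simp))
      simp [Wd, hj, occ2_append, occ2_cons, occ2_replicate, List.count_replicate, val] at e9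
      rw [cA, ca, e4] at e6
      rw [cA, cm] at e5
      rw [cm, ca] at e7
      rw [e1, hl] at e2
      rw [show occ (W (da j)) [A v, a (S.con j)] = 1 by omega] at e8
      simp only [val]
      omega
  have hc : val B X (S.lc j) (kc j) ≤ occ (W (box j)) [m j, c (S.con j)] := by
    rcases hj : S.lc j with _ | ⟨v, b⟩
    · have := one_seg hW (x := m j) (y := c (S.con j)) (box j)
        (by intro s; cases s <;> grind [Al]) (hs _ _ (by simp) (by simp))
      simp [Wd, hj, occ2_append, occ2_cons, occ2_replicate, List.count_replicate, val] at this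
      simp [val, this]
    · have hc : ∀ b', S.la j ≠ some (v, b') := fun b' h => hd j v b' b h hj
      have hb := lit_not hY v b
      have hb' := lit_not hX v b
      have e1 := one_seg hW (x := m j) (y := mu v) (ms v (!b))
        (by rintro (i | i | i | ⟨v', _ | _⟩) <;> cases b <;> grind [Al]) (hs _ _ (by simp) (by simp))
      simp [Wd, hj, hc, occ2_append, occ2_cons, occ2_replicate, occ_mk_right, count_mk_zero,
        count_mk_m, List.count_replicate] at e1
      have e2 := occ2_mul_le (w := W (ms v (!b))) (x := A v) (m := m j) (y := mu v)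
        (by simp [(hW _).count_eq, Wd, hj, hc, count_mk_m, List.count_replicate])
        (by simp) (by simp)
      have e3 := two_seg hW (x := A v) (y := m j) (ms v (!b)) (dc j) (by simp)
        (by rintro (i | i | i | ⟨v', _ | _⟩) <;> cases b <;> grind [Al]) (hs _ _ (by simp) (by simp))
      simp [Wd, hj, hc, occ2_append, occ2_cons, occ2_replicate, occ_mk_left, count_mk_zero,
        count_mk_m, List.count_replicate] at e3
      have cA : (W (dc j)).count (A v) = 1 := by
        simp [(hW _).count_eq, Wd, hj, List.count_replicate]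
      have ca : (W (dc j)).count (c (S.con j)) = 1 := by
        simp [(hW _).count_eq, Wd, hj, List.count_replicate]
      have cm : (W (dc j)).count (m j) = B := by
        simp [(hW _).count_eq, Wd, hj]; omega
      have e4 := all_zero (W := W) (x := A v) (y := c (S.con j)) (fun s => by
        cases s with
        | dc i =>
          simp only [Wd]
          split
          · simp
          · simp [occ2_append, occ2_cons, occ2_replicate, List.count_replicate]
        | _ => exact zero_of_not_al (fun _ => List.Perm.refl _) (by grind [Al]))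
        (hs _ _ (by simp) (by simp)) (dc j)
      have e6 := occ2_swap (W (dc j)) (x := A v) (y := c (S.con j)) (by simp)
      have e7 := occ2_swap (W (dc j)) (x := m j) (y := c (S.con j)) (by simp)
      have e8 := occ2_mul_le (w := W (dc j)) (x := c (S.con j)) (m := A v) (y := m j) cA
        (by simp) (by simp)
      have e9 := two_seg hW (x := m j) (y := c (S.con j)) (box j) (dc j) (by simp)
        (by intro s; cases s <;> grind [Al]) (hs _ _ (by simp) (by simp))
      simp [Wd, hj, occ2_append, occ2_cons, occ2_replicate, List.count_replicate, val] at e9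
      rw [cA, ca, e4] at e6
      rw [cm, ca] at e7
      rw [e1, hl] at e2
      rw [show occ (W (dc j)) [c (S.con j), A v] = 1 by omega] at e8
      simp only [val]
      omega
  exact (Nat.mul_le_mul ha hc).trans (occ2_mul_le
    (by simp [(hW _).count_eq, Wd, List.count_replicate]) (by simp) (by simp))

end Sound

omit [Fintype E] in
theorem sum_ac (X : V → ℕ) (e : E) : ∑ s, (occ (Wd S B ka kc X s) [a e, c e] : ℤ) =
    ∑ j, (val B X (S.la j) (ka j) * val B X (S.lc j) (kc j) : ℕ) *
      bz (a (S.con j)) (c (S.con j)) (a e : Ltr V E J) (c e) := by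
  have z : ∀ s, ¬ (Al S s (a e) ∧ Al S s (c e)) → occ (Wd S B ka kc X s) [a e, c e] = 0 :=
    fun s h => zero_of_not_al (fun _ => List.Perm.refl _) h
  rw [sum_sg, Finset.sum_eq_zero (s := (Finset.univ : Finset V)) fun v _ =>
    Finset.sum_eq_zero fun b _ => by rw [z _ (by grind [Al])]; rfl, add_zero]
  refine Finset.sum_congr rfl fun j _ => ?_
  rw [z (da j) (by grind [Al]), z (dc j) (by grind [Al])]
  by_cases h : S.con j = e
  · subst h
    simp [Wd, occ2_append, occ2_cons, occ2_replicate, List.count_replicate, bz, dl]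
  · rw [z (box j) (by grind [Al])]
    simp [bz, dl, Ne.symm h]

omit [DecidableEq V] [Fintype V] in
theorem nice_val {B k : (ι → ℕ) → ℕ} (hB : Nice fun p => (B p : ℤ)) (hk : Nice fun p => (k p : ℤ))
    (l : Option (V × Bool)) : (Nice fun p => (val (B p) 0 l (k p) : ℤ)) ∧
      Nice fun p => ((cap (B p) l (k p) - val (B p) 0 l (k p) : ℕ) : ℤ) := by
  rcases l with _ | ⟨v, _ | _⟩
  · exact ⟨hk, (Nice.const 0).of_eq fun p => by simp [cap, val]⟩
  · exact ⟨hB, (Nice.const 0).of_eq fun p => by simp [cap, val, lit]⟩
  · exact ⟨Nice.const 0, hB⟩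

theorem nice_rep {α : Type} [DecidableEq α] (x : α) {n : (ι → ℕ) → ℕ}
    (hn : Nice fun p => (n p : ℤ)) : NiceS fun p => ws (replicate (n p) x) :=
  (NiceS.pow (ws_one [x]) hn).of_eq fun _ => (ws_replicate x _).symm

theorem NiceS.append {α : Type} [DecidableEq α] {f g : (ι → ℕ) → List α}
    (hf : NiceS fun p => ws (f p)) (hg : NiceS fun p => ws (g p)) :
    NiceS fun p => ws (f p ++ g p) :=
  (hf.mul hg).of_eq fun _ => (ws_append _ _).symm

/-- Bounded systems of quadratic inequalities are expressed by spectra of degree two. -/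
theorem pres_sys (S : Shape V E J) (B : (ι → ℕ) → ℕ) (ka kc : (ι → ℕ) → J → ℕ)
    (T : (ι → ℕ) → E → ℕ) (hB : Nice fun p => (B p : ℤ)) (hka : ∀ j, Nice fun p => (ka p j : ℤ))
    (hkc : ∀ j, Nice fun p => (kc p j : ℤ)) (hT : ∀ e, Nice fun p => (T p e : ℤ))
    (φ : (ι → ℕ) → Prop)
    (h1 : ∀ p, φ p → ∃ X : V → ℕ, (∀ v, X v ≤ B p) ∧ ∀ e, ∑ j with S.con j = e,
      val (B p) X (S.la j) (ka p j) * val (B p) X (S.lc j) (kc p j) = T p e)
    (h2 : ∀ p (X : V → ℕ), (∀ v, X v ≤ B p) → (∀ e, ∑ j with S.con j = e,
      val (B p) X (S.la j) (ka p j) * val (B p) X (S.lc j) (kc p j) ≤ T p e) → φ p) :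
    Pres φ 2 := by
  choose κ hκF hκ using fun x y : Ltr V E J => exists_comm x y
  let n0 : (ι → ℕ) → J → ℕ := fun p j =>
    val (B p) 0 (S.la j) (ka p j) * val (B p) 0 (S.lc j) (kc p j)
  have h0 : ∀ p (v : V), (0 : V → ℕ) v ≤ B p := fun p v => Nat.zero_le _
  have hl : ∀ (v : V) (b : Bool), (Nice fun p => (lit (B p) 0 v b : ℤ)) ∧
      Nice fun p => ((B p - lit (B p) 0 v b : ℕ) : ℤ) := fun v b => nice_val hB hB (some (v, b))
  have hZ : ∀ p (x y : Ltr V E J), ((∑ e, T p e • (ws [a e, c e] - ws [c e, a e])) +
      ∑ j, n0 p j • (ws [c (S.con j), a (S.con j)] - ws [a (S.con j), c (S.con j)]) :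
        Ser (Ltr V E J)) [x, y] = ∑ e, T p e * bz (a e) (c e) x y -
        ∑ j, n0 p j * bz (a (S.con j)) (c (S.con j)) x y := by
    intro p x y
    simp only [Ser.add_apply, Ser.sum_apply, Ser.nsmul_apply, ws_comm, bz_swap (c _) (a _),
      mul_neg, Finset.sum_neg_distrib]
    ring
  refine pres_of_seg (fun p => Wd S (B p) (ka p) (kc p) 0) (fun s => ?_)
    (fun p => (Finset.univ.toList.map fun e => κ (a e) (c e) ^ T p e).prod *
      (Finset.univ.toList.map fun j => κ (c (S.con j)) (a (S.con j)) ^ n0 p j).prod)
    (fun p => (∑ e, T p e • (ws [a e, c e] - ws [c e, a e])) +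
      ∑ j, n0 p j • (ws [c (S.con j), a (S.con j)] - ws [a (S.con j), c (S.con j)]))
    (fun p => (Fr.listProd _ _ fun e _ => (hκF _ _).pow _).mul
      (Fr.listProd _ _ fun e _ => (hκF _ _).pow _))
    ((NiceS.listProd _ fun e _ => NiceS.pow (hκF _ _).one (hT e)).mul
      (NiceS.listProd _ fun j _ => NiceS.pow (hκF _ _).one
        (((nice_val hB (hka j) (S.la j)).1.mul (nice_val hB (hkc j) (S.lc j)).1).of_eq
          fun p => by simp [n0])))
    (fun p => ?_) φ fun p => ⟨fun hp => ?_, ?_⟩
  · cases s with
    | box j =>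
      exact (nice_rep _ (nice_val hB (hkc j) _).2).append ((nice_rep _ (nice_val hB (hka j) _).1).append
        ((NiceS.const _).append ((nice_rep _ (nice_val hB (hkc j) _).1).append
          (nice_rep _ (nice_val hB (hka j) _).2))))
    | da j =>
      simp only [Wd]
      split
      · exact NiceS.const _
      · exact (nice_rep _ (hl _ _).1).append ((NiceS.const _).append (nice_rep _ (hl _ _).2))
    | dc j =>
      simp only [Wd]
      split
      · exact NiceS.const _
      · exact (nice_rep _ (hl _ _).1).append ((NiceS.const _).append (nice_rep _ (hl _ _).2))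
    | ms v b =>
      exact (nice_rep _ (hl _ _).1).append ((NiceS.const _).append (nice_rep _ (hl _ _).2))
  · have s1 := Sh.listProd Finset.univ.toList _ _ _ fun e _ => (hκ (a e) (c e)).pow (T p e)
    have s2 := Sh.listProd Finset.univ.toList _ _ _
      fun j _ => (hκ (c (S.con j)) (a (S.con j))).pow (n0 p j)
    have := s1.mul s2
    simpa only [one_pow, List.map_const', List.prod_replicate, mul_one, Finset.sum_map_toList]
      using this
  · obtain ⟨X, hX, he⟩ := h1 p hp
    refine ⟨Wd S (B p) (ka p) (kc p) X, wd_perm S _ _ _ hX (h0 p), fun x y => ?_⟩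
    rw [hZ]
    by_cases hxy : x = y
    · subst hxy
      have z : ∀ q r : Ltr V E J, bz q r x x = 0 := fun q r => by unfold bz; ring
      simp only [z, mul_zero, Finset.sum_const_zero, sub_self, add_zero]
      exact Finset.sum_congr rfl fun s _ => by
        rw [occ2_diag, occ2_diag, (wd_perm S _ (ka p) (kc p) hX (h0 p) s).count_eq]
    · have e1 := Finset.sum_congr rfl fun s (_ : s ∈ Finset.univ) =>
        occ_wd S (B p) (ka p) (kc p) hX (h0 p) hxy s
      rw [Finset.sum_sub_distrib, Finset.sum_sub_distrib, sum_fx S _ _ _ hX,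
        sum_fx S _ _ _ (h0 p)] at e1
      have e2 : ∑ e, (T p e : ℤ) * bz (a e) (c e) x y =
          ∑ j, (val (B p) X (S.la j) (ka p j) * val (B p) X (S.lc j) (kc p j) : ℕ) *
            bz (a (S.con j)) (c (S.con j)) x y := by
        rw [← Finset.sum_fiberwise Finset.univ S.con]
        refine Finset.sum_congr rfl fun e _ => ?_
        rw [← he e, Nat.cast_sum, Finset.sum_mul]
        exact Finset.sum_congr rfl fun j hj => by rw [(Finset.mem_filter.1 hj).2]
      simp only [n0]
      linarith
  · rintro ⟨W, hW, hs⟩
    obtain ⟨X, hX, hb⟩ := sound (h0 p) hW fun x y h3 h4 => by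
      have := hs x y
      have z : ∀ e, bz (a e) (c e) x y = 0 := fun e => by
        have := h3 e; have := h4 e
        unfold bz dl; grind
      simp only [hZ, z, mul_zero, Finset.sum_const_zero, sub_self, add_zero] at this
      exact_mod_cast this
    refine h2 p X hX fun e => ?_
    have e1 := hs (a e) (c e)
    rw [hZ, sum_ac, Finset.sum_eq_single e (by
      intro e' _ h
      simp [bz, dl, Ne.symm h]) (by simp), sum_sg] at e1
    have e2 : (0 : ℤ) ≤ ∑ v, ∑ b, (occ (W (ms v b)) [a e, c e] : ℤ) := by positivity
    have e3 : ((∑ j with S.con j = e, val (B p) X (S.la j) (ka p j) *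
        val (B p) X (S.lc j) (kc p j) : ℕ) : ℤ) ≤ ∑ j, ((occ (W (box j)) [a e, c e] : ℤ) +
          occ (W (da j)) [a e, c e] + occ (W (dc j)) [a e, c e]) := by
      rw [Finset.sum_filter, Nat.cast_sum]
      refine Finset.sum_le_sum fun j _ => ?_
      split_ifs with h
      · subst h
        have := hb j
        omega
      · omega
    simp only [n0, bz, dl, if_true, reduceCtorEq, if_false] at e1
    omega

end Pool.Agent.P.MP_26ce3f_co
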