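import Mathlib

/-! Definitions used in the statements. -/

namespace Pool.Agent.P.MP_26ce3f_co

/-- `occ w u` is the number of occurrences of `u` as a scattered subword of `w`: the list
`w.sublists` has one entry for each set of positions of `w`. -/
def occ {α : Type} [DecidableEq α] (w u : List α) : ℕ := w.sublists.count u

/-- The list of all words of length `t` over the alphabet `Fin k`. -/
def words (k t : ℕ) : List (List (Fin k)) := (List.replicate t (List.finRange k)).sections

/-- The `t`-spectrum of `w`, as the list of its coefficients. -/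
def spec {k : ℕ} (t : ℕ) (w : List (Fin k)) : List ℕ := (words k t).map (occ w)

/-- Functions of an integer vector given by terms built from the coordinates in `V` and integer
constants by addition, multiplication and integer division. -/
inductive IsTerm {ι : Type} (V : Set ι) : ((ι → ℤ) → ℤ) → Prop
  | var (i : ι) (h : i ∈ V) : IsTerm V fun c => c i
  | const (z : ℤ) : IsTerm V fun _ => z
  | add {f g : (ι → ℤ) → ℤ} : IsTerm V f → IsTerm V g → IsTerm V fun c => f c + g c
  | mul {f g : (ι → ℤ) → ℤ} : IsTerm V f → IsTerm V g → IsTerm V fun c => f c * g c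
  | div {f g : (ι → ℤ) → ℤ} : IsTerm V f → IsTerm V g → IsTerm V fun c => f c / g c

/-- Conditions on an integer vector given by Boolean combinations of inequalities between terms. -/
inductive IsQF {ι : Type} (V : Set ι) : ((ι → ℤ) → Prop) → Prop
  | le {f g : (ι → ℤ) → ℤ} : IsTerm V f → IsTerm V g → IsQF V fun c => f c ≤ g c
  | not {φ : (ι → ℤ) → Prop} : IsQF V φ → IsQF V fun c => ¬ φ c
  | and {φ ψ : (ι → ℤ) → Prop} : IsQF V φ → IsQF V ψ → IsQF V fun c => φ c ∧ ψ c

end Pool.Agent.P.MP_26ce3f_co
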