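import Pool.Agent.P.MP_26ce3f_co.Quad
import Pool.Agent.Lib.helper77.SubsetSum

/-! Membership in the set of spectra is hard for `NP`. -/

namespace Pool.Agent.P.MP_26ce3f_co

open Pool.Agent.Lib.helper21 Pool.Agent.Lib.helper77

theorem Nice.pt {α ι : Type} [Enc α] {P : α → ι → ℕ} (hP : ∀ i, PT fun x => (P x i : ℤ))
    {f : (ι → ℕ) → ℤ} (hf : Nice f) : PT fun x => f (P x) := by
  induction hf with
  | var i => exact hP i
  | const z => exact PT.const z
  | add _ _ h1 h2 => exact h1.intAdd h2
  | mul _ _ h1 h2 => exact h1.intMul h2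
  | div d hd _ h ih => exact PT.exactDiv d hd ih fun x => h _

theorem mem_words {k t : ℕ} {u : List (Fin k)} : u ∈ words k t ↔ u.length = t := by
  unfold words
  rw [List.mem_sections]
  constructor
  · intro h
    simpa using h.length_eq
  · rintro rfl
    induction u with
    | nil => exact List.Forall₂.nil
    | cons a u ih => exact List.Forall₂.cons (List.mem_finRange a) ih

theorem encodeNat_eq (n : ℕ) : Computability.encodeNat n = n.bits := by
  have h : ∀ p : PosNum, Computability.encodePosNum p = (p : ℕ).bits := by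
    intro p
    induction p with
    | one => rfl
    | bit0 p ih =>
      rw [Computability.encodePosNum, ih, PosNum.cast_bit0, ← two_mul,
        Nat.bit0_bits _ (PosNum.cast_pos p).ne']
    | bit1 p ih =>
      rw [Computability.encodePosNum, ih, PosNum.cast_bit1, ← two_mul, Nat.bit1_bits]
  unfold Computability.encodeNat
  conv_rhs => rw [← Num.to_of_nat n]
  cases (n : Num) with
  | zero => simp [Computability.encodeNum]
  | pos p => exact h p

theorem np_hard (t : ℕ) (ht : 2 ≤ t) : ∃ k0 : ℕ, ∀ k, k0 ≤ k → ∀ L ∈ N68a2faeb.NP,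
    ∃ f : List Bool → List ℕ, N68a2faeb.IsPolyTime f ∧
      ∀ x, L x = true ↔ ∃ w : List (Fin k), spec t w = f x := by
  obtain ⟨k0, h⟩ := (pres_qs.of_le ht).final ht
  refine ⟨k0, fun k hk L hL => ?_⟩
  obtain ⟨G, hG, hG'⟩ := h k hk
  obtain ⟨K, H, M, ρ, hK, hH, hM, hρ, hq⟩ := quad_hard L hL
  let P : List Bool → Fin 6 → ℕ := fun x => ![K x, K x, H x, 0, M x, ρ x]
  have hP : ∀ i, PT fun x => (P x i : ℤ) := fun i => by
    fin_cases i
    exacts [hK, hK, hH, PT.const 0, hM, hρ]
  have hz : ∀ l : List (List (Fin k)), PT fun x => l.map (G (P x)) := fun l => by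
    induction l with
    | nil => exact PT.const []
    | cons u l ih => exact ((hG u).pt hP).cons ih
  have hb : PT fun z : ℤ => z.natAbs.bits :=
    PT.ofRaw.comp (g := fun z : ℤ => Raw.mk z.natAbs.bits) (PT.absB PT.id)
  refine ⟨fun x => cond (((words k t).map (G (P x))).any isNeg) []
    (((words k t).map (G (P x))).map Int.natAbs), toPrelude (PT.of_eq
      (f := fun x => cond (((words k t).map (G (P x))).any isNeg) []
        (((words k t).map (G (P x))).flatMap fun z =>
          (z.natAbs.bits.flatMap fun b => [true, b]) ++ [false])) ?_ fun x => ?_),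
    fun x => (hq x).trans ⟨fun hx => ?_, ?_⟩⟩
  · have h1 : PT fun l : List ℤ => cond (l.any isNeg) [] (l.flatMap fun z =>
        (z.natAbs.bits.flatMap fun b => [true, b]) ++ [false]) :=
      PT.cond (by fun_prop) (PT.const _) (PT.flatMap PT.id (PT.append (PT.flatMap
        (hb.comp (g := fun p : List ℤ × ℤ => p.2) (by fun_prop)) (by fun_prop)) (PT.const _)))
    exact h1.comp (hz (words k t))
  · cases ((words k t).map (G (P x))).any isNeg
    · show _ = ((List.map N487b59b3.bitEncode _).map N487b59b3.delimit).flatten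
      simp only [cond_false, List.map_map, List.flatMap_def]
      congr 1
      refine List.map_congr_left fun u _ => ?_
      simp only [Function.comp_apply, delimit_eq, List.flatMap_def]
      rw [← encodeNat_eq]; rfl
    · rfl
  · obtain ⟨w, hw⟩ := (hG' (P x)).1 hx
    have e : (words k t).map (G (P x)) = (words k t).map (ws w) :=
      List.map_congr_left fun u hu => (hw u (mem_words.1 hu).le).symm
    refine ⟨w, ?_⟩
    beta_reduce
    rw [e, List.any_eq_false.2 (by simp [isNeg, ws_apply])]
    simp [spec, ws_apply]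
  · rintro ⟨w, hw⟩
    beta_reduce at hw
    refine (hG' (P x)).2 ⟨w, fun u hu => ?_⟩
    cases hn : ((words k t).map (G (P x))).any isNeg
    · rw [hn, cond_false, spec, List.map_map, List.map_inj_left] at hw
      have h1 := hw u (mem_words.2 hu)
      have h2 := List.any_eq_false.1 hn _ (List.mem_map_of_mem (mem_words.2 hu))
      simp only [isNeg, decide_eq_true_eq, Function.comp_apply] at h1 h2
      rw [ws_apply, h1]; omega
    · rw [hn, cond_true, spec, List.map_eq_nil_iff] at hw
      exact absurd (mem_words.2 hu) (by simp [hw])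

end Pool.Agent.P.MP_26ce3f_co
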