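import Pool.Agent.P.MP_26ce3f_co.Ser

/-! Families of series with integer-valued polynomial coefficients, and the passage from degree
`t` to degree `t + 1`. -/

namespace Pool.Agent.P.MP_26ce3f_co

open Ser

variable {α β ι : Type}

/-- Integer-valued polynomial functions of natural parameters. -/
inductive Nice : ((ι → ℕ) → ℤ) → Prop
  | var (i : ι) : Nice fun p => (p i : ℤ)
  | const (z : ℤ) : Nice fun _ => z
  | add {f g : (ι → ℕ) → ℤ} : Nice f → Nice g → Nice fun p => f p + g p
  | mul {f g : (ι → ℕ) → ℤ} : Nice f → Nice g → Nice fun p => f p * g p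
  | div (d : ℕ) (hd : 0 < d) {f g : (ι → ℕ) → ℤ} : Nice g → (∀ p, g p = d * f p) → Nice f

theorem Nice.of_eq {f g : (ι → ℕ) → ℤ} (h : Nice f) (e : ∀ p, f p = g p) : Nice g := by
  have : f = g := funext e
  exact this ▸ h

theorem Nice.sub {f g : (ι → ℕ) → ℤ} (hf : Nice f) (hg : Nice g) : Nice fun p => f p - g p :=
  (hf.add ((Nice.const (-1)).mul hg)).of_eq fun p => by ring

theorem Nice.pow {f : (ι → ℕ) → ℤ} (hf : Nice f) (n : ℕ) : Nice fun p => f p ^ n := by
  induction n with
  | zero => exact (Nice.const 1).of_eq fun p => by simp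
  | succ n ih => exact (ih.mul hf).of_eq fun p => by ring

theorem Nice.sum {κ : Type} (s : Finset κ) {f : κ → (ι → ℕ) → ℤ} (h : ∀ k ∈ s, Nice (f k)) :
    Nice fun p => ∑ k ∈ s, f k p := by
  classical
  induction s using Finset.induction_on with
  | empty => exact (Nice.const 0).of_eq fun p => by simp
  | insert k s hk ih =>
    exact ((h k (by simp)).add (ih fun j hj => h j (by simp [hj]))).of_eq fun p => by
      rw [Finset.sum_insert hk]

theorem Nice.choose {n : (ι → ℕ) → ℕ} (h : Nice fun p => (n p : ℤ)) (k : ℕ) :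
    Nice fun p => ((n p).choose k : ℤ) := by
  have h1 : ∀ k, Nice fun p => ((n p).descFactorial k : ℤ) := by
    intro k
    induction k with
    | zero => exact (Nice.const 1).of_eq fun p => by simp
    | succ k ih =>
      refine ((h.sub (Nice.const k)).mul ih).of_eq fun p => ?_
      rw [Nat.descFactorial_succ]
      rcases Nat.lt_or_ge (n p) k with h2 | h2
      · simp [Nat.descFactorial_eq_zero_iff_lt.2 h2]
      · push_cast [h2]; rfl
  exact Nice.div k.factorial k.factorial_pos (h1 k) fun p => by
    rw [Nat.descFactorial_eq_factorial_mul_choose]; push_cast; rfl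

/-- Families of series all of whose coefficients are `Nice`. -/
def NiceS (g : (ι → ℕ) → Ser α) : Prop := ∀ u, Nice fun p => g p u

theorem NiceS.const (f : Ser α) : NiceS fun _ : ι → ℕ => f := fun _ => Nice.const _

theorem NiceS.of_eq {f g : (ι → ℕ) → Ser α} (h : NiceS f) (e : ∀ p, f p = g p) : NiceS g := by
  have : f = g := funext e
  exact this ▸ h

theorem NiceS.mul {f g : (ι → ℕ) → Ser α} (hf : NiceS f) (hg : NiceS g) :
    NiceS fun p => f p * g p := by
  intro u
  induction u generalizing f with
  | nil => exact (hf []).mul (hg [])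
  | cons a u ih =>
    exact ((hf []).mul (hg (a :: u))).add
      (ih (f := fun p => der a (f p)) fun v => hf (a :: v))

theorem NiceS.listProd {κ : Type} (l : List κ) {f : κ → (ι → ℕ) → Ser α}
    (h : ∀ k ∈ l, NiceS (f k)) : NiceS fun p => (l.map fun k => f k p).prod := by
  induction l with
  | nil => exact NiceS.const 1
  | cons k l ih =>
    exact ((h k (by simp)).mul (ih fun j hj => h j (by simp [hj]))).of_eq fun p => by simp

theorem NiceS.pow {h : Ser α} (h1 : h [] = 1) {n : (ι → ℕ) → ℕ} (hn : Nice fun p => (n p : ℤ)) :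
    NiceS fun p => h ^ n p := by
  intro u
  have hv : Van 1 (h - 1) := fun v hv => by
    have : v = [] := List.length_eq_zero_iff.1 (by omega)
    subst this; simp [h1]
  refine (Nice.sum (Finset.range (u.length + 1))
    (f := fun m p => ((n p).choose m : ℤ) * ((h - 1) ^ m) u)
    fun m _ => (hn.choose m).mul (Nice.const _)).of_eq fun p => ?_
  have e : h ^ n p = (h - 1 + 1) ^ n p := by rw [sub_add_cancel]
  beta_reduce
  rw [e, (Commute.one_right (h - 1)).add_pow, sum_apply]
  simp only [one_pow, mul_one, mul_natCast]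
  have s1 : Finset.range (u.length + 1) ⊆ Finset.range (n p + u.length + 1) :=
    Finset.range_subset_range.2 (by omega)
  have s2 : Finset.range (n p + 1) ⊆ Finset.range (n p + u.length + 1) :=
    Finset.range_subset_range.2 (by omega)
  rw [Finset.sum_subset s1, Finset.sum_subset s2]
  · intro m _ hm
    rw [Nat.choose_eq_zero_of_lt (by simpa using hm)]; simp
  · intro m _ hm
    rw [hv.pow m u (by simp at hm; omega)]; simp

theorem NiceS.mapS {e : α → β} (he : Function.Injective e) {g : (ι → ℕ) → Ser α} (h : NiceS g) :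
    NiceS fun p => mapS e (g p) := by
  intro v
  rcases map_or_out e v with ⟨u, rfl⟩ | ⟨c, hc, hc'⟩
  · exact (h u).of_eq fun p => (mapS_map he _ _).symm
  · exact (Nice.const 0).of_eq fun p => (mapS_out _ hc hc').symm

section
variable [DecidableEq α] [DecidableEq β]

theorem switch {t : ℕ} {U V : List α} {z : Ser α} (h : Sh t (ws U) (ws V) z) (R : ℕ) (r : ℤ)
    (hr : |r| ≤ R) : ∃ q, Sh t (ws q) (ws (wpow U R ++ wpow V R)) (r • z) := by
  rw [ws_append, ws_wpow, ws_wpow]
  have o : ∀ (W : List α) (n : ℕ), Sh t (ws W ^ n) (ws W ^ n) 0 := fun W n =>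
    Sh.refl t (by rw [← ws_wpow]; simp)
  obtain ⟨m, rfl | rfl⟩ := Int.eq_nat_or_neg r
  · obtain ⟨k, rfl⟩ := Nat.exists_eq_add_of_le (show m ≤ R by simpa using hr)
    refine ⟨wpow U (m + k) ++ (wpow U m ++ wpow V k), ?_⟩
    rw [ws_append, ws_append, ws_wpow, ws_wpow, ws_wpow, pow_add (ws V)]
    exact ((o U _).mul ((h.pow m).mul (o V k))).congr fun u _ => by simp [natCast_mul]
  · obtain ⟨k, rfl⟩ := Nat.exists_eq_add_of_le' (show m ≤ R by simpa using hr)
    refine ⟨wpow U k ++ wpow V m ++ wpow V (k + m), ?_⟩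
    rw [ws_append, ws_append, ws_wpow, ws_wpow, ws_wpow, pow_add (ws U)]
    exact (((o U k).mul (h.symm.pow m)).mul (o V _)).congr fun u _ => by simp [natCast_mul]

/-- A word which can absorb every bounded difference in the top degree. -/
theorem absorb [Fintype α] (t : ℕ) : ∃ Q0 : ℕ → List α,
    (∀ {ι : Type} (n : (ι → ℕ) → ℕ), (Nice fun p => (n p : ℤ)) → NiceS fun p => ws (Q0 (n p))) ∧
    ∀ (D : ℕ) (U V : List α), Eqv t (ws U) (ws V) →
      (∀ u : List α, u.length = t + 1 → |ws U u - ws V u| ≤ D) →
      ∃ Q, Sh t (ws Q) (ws (Q0 D)) (ws U - ws V) := by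
  classical
  let I := List.Vector α (t + 1)
  let A : AddSubgroup (I → ℤ) :=
    { carrier := {d | ∃ U V : List α, Eqv t (ws U) (ws V) ∧ ∀ i : I, d i = ws U i.1 - ws V i.1}
      zero_mem' := ⟨[], [], Eqv.refl _ _, fun i => by simp⟩
      neg_mem' := by
        rintro d ⟨U, V, h, hd⟩
        exact ⟨V, U, h.symm, fun i => by simp [hd i]⟩
      add_mem' := by
        rintro d d' ⟨U, V, h, hd⟩ ⟨U', V', h', hd'⟩
        have := (Sh.of_eqv (ws_one _) h).mul (Sh.of_eqv (ws_one _) h')
        rw [← ws_append, ← ws_append] at this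
        refine ⟨U ++ U', V ++ V', this.eqv, fun i => ?_⟩
        rw [this.top i.1 i.2]; simp [hd i, hd' i] }
  obtain ⟨n, snf⟩ := (AddSubgroup.toIntSubmodule A).smithNormalForm (Pi.basisFun ℤ I)
  have hb : ∀ i : Fin n, ∃ U V : List α, Eqv t (ws U) (ws V) ∧
      ∀ j : I, (snf.bN i : I → ℤ) j = ws U j.1 - ws V j.1 := fun i => (snf.bN i).2
  choose U V hUV hd using hb
  let φ : Fin n → (I → ℤ) →ₗ[ℤ] ℤ := fun i => snf.bM.coord (snf.f i)
  let C : ℕ := ∑ i, ∑ j : I, (φ i fun j' => if j = j' then 1 else 0).natAbs
  refine ⟨fun D => (List.finRange n).flatMap fun i => wpow (U i) (C * D) ++ wpow (V i) (C * D),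
    fun m hm => ?_, fun D U' V' h hD => ?_⟩
  · have hm' : Nice fun p => ((C * m p : ℕ) : ℤ) :=
      ((Nice.const C).mul hm).of_eq fun p => by push_cast; rfl
    refine (NiceS.listProd (List.finRange n) (f := fun i p => ws (U i) ^ (C * m p) *
      ws (V i) ^ (C * m p)) fun i _ => (NiceS.pow (ws_one _) hm').mul
        (NiceS.pow (ws_one _) hm')).of_eq fun p => ?_
    simp only [ws_flatMap, ws_append, ws_wpow]
  · let d : AddSubgroup.toIntSubmodule A := ⟨fun i => ws U' i.1 - ws V' i.1, U', V', h, fun _ => rfl⟩
    have hr : ∀ i, |snf.bN.repr d i| ≤ ((C * D : ℕ) : ℤ) := by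
      intro i
      have h1 : φ i d = snf.a i * snf.bN.repr d i := by
        simp [φ]
      have h2 : snf.a i ≠ 0 := by
        intro h0
        have := snf.snf i
        rw [h0, zero_smul] at this
        exact snf.bN.ne_zero i (Subtype.ext this)
      have h3 : |snf.bN.repr d i| ≤ |φ i d| := by
        rw [h1, abs_mul]
        exact le_mul_of_one_le_left (abs_nonneg _) (Int.one_le_abs h2)
      refine h3.trans ?_
      rw [LinearMap.pi_apply_eq_sum_univ]
      refine (Finset.abs_sum_le_sum_abs _ _).trans ?_
      have h4 : ∑ j : I, (φ i fun j' => if j = j' then 1 else 0).natAbs ≤ C :=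
        Finset.single_le_sum (f := fun i => ∑ j : I, (φ i fun j' => if j = j' then 1 else 0).natAbs)
          (fun _ _ => Nat.zero_le _) (Finset.mem_univ i)
      calc _ ≤ ∑ j : I, ((φ i fun j' => if j = j' then 1 else 0).natAbs : ℤ) * D := by
            refine Finset.sum_le_sum fun j _ => ?_
            rw [smul_eq_mul, abs_mul, mul_comm, Int.natCast_natAbs]
            exact mul_le_mul_of_nonneg_left (hD j.1 j.2) (abs_nonneg _)
        _ = ((∑ j : I, (φ i fun j' => if j = j' then 1 else 0).natAbs) * D : ℕ) := by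
            push_cast; rw [Finset.sum_mul]
        _ ≤ _ := by exact_mod_cast Nat.mul_le_mul_right D h4
    choose q hq using fun i => switch (Sh.of_eqv (ws_one _) (hUV i)) (C * D) _ (hr i)
    refine ⟨(List.finRange n).flatMap q, ?_⟩
    rw [ws_flatMap, ws_flatMap]
    refine (Sh.listProd _ _ _ _ fun i _ => hq i).congr fun u hu => ?_
    rw [← Fin.sum_univ_def, sum_apply]
    have h5 := congrArg (fun x : AddSubgroup.toIntSubmodule A => (x : I → ℤ) ⟨u, hu⟩)
      (snf.bN.sum_repr d)
    simp only [AddSubmonoidClass.coe_finsetSum, Finset.sum_apply, SetLike.val_smul,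
      Pi.smul_apply, hd, smul_eq_mul] at h5
    simpa [d] using h5

theorem length_eq_sum [Fintype α] (w : List α) : (w.length : ℤ) = ∑ a, ws w [a] := by
  simp only [ws_apply, occ_single]
  induction w with
  | nil => simp
  | cons b w ih => simp [List.count_cons, Finset.sum_add_distrib, ih]

theorem sep_coeff (f h : Ser α) (h1 : h [] = 1) (u : List α) :
    (mapS some f * (ws [none] * mapS some h) : Ser (Option α)) (u.map some ++ [none]) = f u := by
  have hi := Option.some_injective α
  induction u generalizing f with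
  | nil =>
    simp [mul_cons, der_mapS_out, mapS_nil hi, der_ws_single, h1, mapS_out h (b := none)]
  | cons a u ih =>
    rw [List.map_cons, List.cons_append, mul_cons, der_mapS hi, ih, mul_cons, der_ws_single,
      mapS_out h (b := none) (by simp) (by simp)]
    simp

omit [DecidableEq α] in
theorem eq_map_some {w : List (Option α)} (h : none ∉ w) : ∃ v : List α, w = v.map some := by
  rcases map_or_out some w with h1 | ⟨c, hc, hc'⟩
  · exact h1
  · cases c with
    | none => exact absurd hc h
    | some a => exact absurd rfl (hc' a)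

end

/-- The predicate `φ` is expressed by realisability of a family of series up to degree `t`. -/
def Pres (φ : (ι → ℕ) → Prop) (t : ℕ) : Prop :=
  ∃ (α : Type) (_ : Fintype α) (_ : DecidableEq α) (g : (ι → ℕ) → Ser α),
    (∀ p, Fr (g p)) ∧ NiceS g ∧ ∀ p, φ p ↔ ∃ w, Eqv t (ws w) (g p)

theorem Pres.succ {φ : (ι → ℕ) → Prop} {t : ℕ} (ht : 1 ≤ t) (h : Pres φ t) : Pres φ (t + 1) := by
  obtain ⟨α, _, _, g, hF, hN, hφ⟩ := h
  have hi := Option.some_injective α
  obtain ⟨Q0, hQN, hQ⟩ := absorb (α := α) t
  let Dz : (ι → ℕ) → ℤ := fun p => ((∑ a, g p [a]) ^ 2 + 1) ^ (t + 1) +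
    ∑ i : List.Vector α (t + 1), g p i.1 ^ 2
  have hD0 : ∀ p, 0 ≤ Dz p := fun p => by positivity
  have hDN : Nice fun p => ((Dz p).toNat : ℤ) :=
    (((((Nice.sum _ fun a _ => hN [a]).pow 2).add (Nice.const 1)).pow (t + 1)).add
      (Nice.sum _ fun i _ => (hN i.1).pow 2)).of_eq fun p => (Int.toNat_of_nonneg (hD0 p)).symm
  refine ⟨Option α, inferInstance, inferInstance,
    fun p => mapS some (g p) * (ws [none] * mapS some (ws (Q0 (Dz p).toNat))), fun p => ?_, ?_,
    fun p => (hφ p).trans ⟨?_, ?_⟩⟩
  · exact ((hF p).mapS hi).mul ((Fr.ws _).mul ((Fr.ws _).mapS hi))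
  · exact (hN.mapS hi).mul ((NiceS.const _).mul ((hQN _ hDN).mapS hi))
  · rintro ⟨P, hP⟩
    obtain ⟨R, W, hRW⟩ := hF p (t + 1)
    have s1 := Sh.of_eqv (hF p).one hP
    have s2 := s1.mul (Sh.refl t (ws_one R))
    rw [← ws_append] at s2
    have s3 : Sh t (ws (P ++ R)) (ws W) (ws P - g p) :=
      (s2.trans (Sh.of_eqv (ws_one W) (hRW.mono (by omega)))).congr fun u hu => by
        simp [hRW u hu.le]
    obtain ⟨Q, hQ'⟩ := hQ (Dz p).toNat W (P ++ R) s3.eqv.symm fun u hu => by
      rw [s3.top u hu, Int.toNat_of_nonneg (hD0 p)]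
      have e1 : (P.length : ℤ) = ∑ a, g p [a] := by
        rw [length_eq_sum]
        exact Finset.sum_congr rfl fun a _ => hP [a] (by simpa using ht)
      have e2 : ws P u ≤ ((∑ a, g p [a]) ^ 2 + 1) ^ (t + 1) := by
        rw [← e1, ws_apply, ← hu]
        have := occ_le_pow P u
        calc (occ P u : ℤ) ≤ (P.length : ℤ) ^ u.length := by exact_mod_cast this
          _ ≤ _ := pow_le_pow_left₀ (by positivity) (by nlinarith) _
      have e3 : g p u ^ 2 ≤ ∑ i : List.Vector α (t + 1), g p i.1 ^ 2 :=
        Finset.single_le_sum (f := fun i : List.Vector α (t + 1) => g p i.1 ^ 2)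
          (fun _ _ => by positivity) (Finset.mem_univ ⟨u, hu⟩)
      have e4 : (0 : ℤ) ≤ ws P u := by rw [ws_apply]; positivity
      have e5 : |g p u| ≤ g p u ^ 2 := by rw [← sq_abs]; nlinarith [abs_nonneg (g p u), Int.le_self_sq |g p u|]
      rw [abs_le] at e5 ⊢
      simp only [sub_apply, Dz]
      constructor <;> linarith
    refine ⟨P.map some ++ ([none] ++ Q.map some), ?_⟩
    rw [ws_append, ws_append, ws_map hi, ws_map hi]
    refine ((s1.mapS hi).mul ((Sh.refl t (ws_one _)).mul (hQ'.mapS hi))).eqv_succ fun v hv => ?_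
    rcases map_or_out some v with ⟨u, rfl⟩ | ⟨c, hc, hc'⟩
    · have := s3.top u (by simpa using hv)
      simp only [add_apply, zero_apply, mapS_map hi, sub_apply] at this ⊢
      omega
    · simp [mapS_out _ hc hc']
  · rintro ⟨w, hw⟩
    beta_reduce at hw
    have h1 := hw [none] (by simp)
    have h2 := sep_coeff (g p) (ws (Q0 (Dz p).toNat)) (ws_one _) []
    simp only [List.map_nil, List.nil_append, (hF p).one] at h2
    rw [h2, ws_apply, occ_single] at h1
    have h3 : w.count none = 1 := by exact_mod_cast h1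
    obtain ⟨A, B, rfl⟩ := List.append_of_mem (List.count_pos_iff.1 (by omega : 0 < w.count none))
    simp only [List.count_append, List.count_cons_self] at h3
    obtain ⟨P, rfl⟩ := eq_map_some (w := A) (List.count_eq_zero.1 (by omega))
    obtain ⟨Q, rfl⟩ := eq_map_some (w := B) (List.count_eq_zero.1 (by omega))
    refine ⟨P, fun u hu => ?_⟩
    have h4 := hw (u.map some ++ [none]) (by simpa using hu)
    rw [sep_coeff _ _ (ws_one _), ws_append, ws_cons, ws_map hi, ws_map hi,
      sep_coeff _ _ (ws_one _)] at h4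
    exact h4

theorem Pres.of_le {φ : (ι → ℕ) → Prop} (h : Pres φ 2) {t : ℕ} (ht : 2 ≤ t) : Pres φ t := by
  induction t, ht using Nat.le_induction with
  | base => exact h
  | succ t ht ih => exact ih.succ (by omega)

theorem exists_between {s w : List α} (h : s.Sublist w) (t : ℕ) (h1 : s.length ≤ t)
    (h2 : t ≤ w.length) : ∃ v : List α, s.Sublist v ∧ v.Sublist w ∧ v.length = t := by
  induction h generalizing t with
  | slnil => exact ⟨[], List.Sublist.slnil, List.Sublist.slnil, by simp at h2; simp [h2]⟩
  | @cons s w a h ih =>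
    rcases Nat.lt_or_ge w.length t with h3 | h3
    · exact ⟨a :: w, h.cons a, List.Sublist.refl _, by simp at h2 ⊢; omega⟩
    · obtain ⟨v, hv1, hv2, hv3⟩ := ih t h1 h3
      exact ⟨v, hv1, hv2.cons a, hv3⟩
  | @cons_cons s w a h ih =>
    obtain ⟨t, rfl⟩ : ∃ t', t = t' + 1 := ⟨t - 1, by simp at h1; omega⟩
    obtain ⟨v, hv1, hv2, hv3⟩ := ih t (by simpa using h1) (by simpa using h2)
    exact ⟨a :: v, hv1.cons_cons a, hv2.cons_cons a, by simp [hv3]⟩

section
variable [DecidableEq α]

theorem ws_rep_zero (t : ℕ) {v : List (Option α)} {a : α} (h : some a ∈ v) :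
    ws (List.replicate t (none : Option α)) v = 0 := by
  rw [ws_apply, Nat.cast_eq_zero]
  by_contra h0
  have := ((occ_pos_iff _ _).1 (Nat.pos_of_ne_zero h0)).subset h
  simp at this

theorem pad_zero (t : ℕ) (f : Ser α) {v : List (Option α)} {a : α}
    (h : [none, some a].Sublist v) : 
    (mapS some f * ws (List.replicate t none) : Ser (Option α)) v = 0 := by
  have hi := Option.some_injective α
  induction v generalizing f with
  | nil => simp at h
  | cons b v ih =>
    rw [mul_cons, ws_rep_zero t (a := a) (h.subset (by simp))]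
    cases b with
    | none => rw [der_mapS_out _ (by simp)]; simp
    | some b =>
      rw [der_mapS hi, ih _ (by
        rcases List.sublist_cons_iff.1 h with h | ⟨r, h1, _⟩
        · exact h
        · simp at h1)]
      simp

theorem pad_coeff (t r : ℕ) (f : Ser α) (u : List α) :
    (mapS some f * ws (List.replicate t none) : Ser (Option α))
      (u.map some ++ List.replicate r none) =
      f u * t.choose r := by
  have hi := Option.some_injective α
  induction u generalizing f with
  | nil =>
    cases r with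
    | zero => simp [mapS_nil hi]
    | succ r =>
      rw [List.map_nil, List.nil_append, List.replicate_succ, mul_cons, der_mapS_out _ (by simp),
        ← List.replicate_succ, ws_apply, occ_replicate, mapS_nil hi]
      simp
  | cons a u ih =>
    rw [List.map_cons, List.cons_append, mul_cons, der_mapS hi, ih,
      ws_rep_zero t (a := a) (by simp)]
    simp

theorem pad_shape {w : List (Option α)} (h : ∀ a, ¬ [none, some a].Sublist w) :
    ∃ v : List α, w = v.map some ++ List.replicate (w.count none) none := by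
  induction w with
  | nil => exact ⟨[], rfl⟩
  | cons b w ih =>
    cases b with
    | none =>
      refine ⟨[], ?_⟩
      have : ∀ c ∈ w, c = none := fun c hc => by
        cases c with
        | none => rfl
        | some a => exact absurd ((List.singleton_sublist.2 hc).cons_cons none) (h a)
      obtain ⟨n, rfl⟩ : ∃ n, w = List.replicate n none := ⟨w.length, List.eq_replicate_of_mem this⟩
      simp [List.replicate_succ]
    | some a =>
      obtain ⟨v, hv⟩ := ih fun c hc => h c (hc.cons _)
      refine ⟨a :: v, ?_⟩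
      rw [List.map_cons, List.cons_append, List.count_cons_of_ne (by simp), ← hv]

end

theorem choose_eq_one {n t : ℕ} (ht : 1 ≤ t) (h : n.choose t = 1) : n = t := by
  rcases Nat.choose_eq_one_iff.1 h with h | h <;> omega

/-- The final form: a fixed alphabet `Fin k`, and only the coefficients of degree `t` matter. -/
theorem Pres.final {φ : (ι → ℕ) → Prop} {t : ℕ} (ht : 2 ≤ t) (h : Pres φ t) :
    ∃ k0 : ℕ, ∀ k, k0 ≤ k → ∃ G : (ι → ℕ) → Ser (Fin k), NiceS G ∧ ∀ p,
      (φ p → ∃ w, Eqv t (ws w) (G p)) ∧
      ((∃ w, ∀ u : List (Fin k), u.length = t → ws w u = G p u) → φ p) := by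
  obtain ⟨α, _, _, g, hF, hN, hφ⟩ := h
  have hi := Option.some_injective α
  refine ⟨Fintype.card (Option α), fun k hk => ?_⟩
  obtain ⟨e⟩ : Nonempty (Option α ↪ Fin k) :=
    Function.Embedding.nonempty_of_card_le (by simpa using hk)
  have he := e.injective
  refine ⟨fun p => mapS e (mapS some (g p) * ws (List.replicate t none)),
    ((hN.mapS hi).mul (NiceS.const _)).mapS he, fun p => ⟨fun hp => ?_, ?_⟩⟩
  · obtain ⟨w, hw⟩ := (hφ p).1 hp
    refine ⟨(w.map some ++ List.replicate t none).map e, ?_⟩
    rw [ws_map he, ws_append, ws_map hi]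
    exact ((hw.mapS hi).mul (Eqv.refl _ _)).mapS he
  · rintro ⟨w, hw⟩
    beta_reduce at hw
    have c0 := pad_coeff t t (g p) []
    simp only [List.map_nil, List.nil_append, (hF p).one, Nat.choose_self, Nat.cast_one,
      mul_one] at c0
    have hlen : t ≤ w.length := by
      have := hw ((List.replicate t none).map e) (by simp)
      rw [mapS_map he, c0, ws_apply] at this
      have h2 := ((occ_pos_iff w ((List.replicate t none).map e)).1 (by omega)).length_le
      simpa using h2
    rcases map_or_out e w with ⟨w', rfl⟩ | ⟨c, hc, hc'⟩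
    swap
    · obtain ⟨v, hv1, hv2, hv3⟩ := exists_between (List.singleton_sublist.2 hc) t
        (by simp; omega) hlen
      have h1 := hw v hv3
      rw [mapS_out _ (List.singleton_sublist.1 hv1) hc', ws_apply] at h1
      have := (occ_pos_iff _ _).2 hv2
      omega
    have hw' : ∀ u : List (Option α), u.length = t →
        ws w' u = (mapS some (g p) * ws (List.replicate t none) : Ser (Option α)) u :=
      fun u hu => by
      have := hw (u.map e) (by simpa using hu)
      rwa [ws_map he, mapS_map he, mapS_map he] at this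
    have hc : w'.count none = t := by
      have := hw' (List.replicate t none) (by simp)
      rw [c0, ws_apply, occ_replicate] at this
      exact choose_eq_one (by omega) (by exact_mod_cast this)
    obtain ⟨P, hP⟩ := pad_shape (w := w') fun a ha => by
      obtain ⟨v, hv1, hv2, hv3⟩ := exists_between ha t (by simpa using ht) (by simpa using hlen)
      have h1 := hw' v hv3
      rw [pad_zero t _ hv1, ws_apply] at h1
      have := (occ_pos_iff _ _).2 hv2
      omega
    rw [hc] at hP
    refine (hφ p).2 ⟨P, fun u hu => ?_⟩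
    have h1 := hw' (u.map some ++ List.replicate (t - u.length) none) (by simp; omega)
    rw [hP, ws_append, ws_map hi, pad_coeff, pad_coeff] at h1
    have h2 : (t.choose (t - u.length) : ℤ) ≠ 0 := by
      exact_mod_cast (Nat.choose_pos (by omega)).ne'
    exact mul_right_cancel₀ h2 h1

end Pool.Agent.P.MP_26ce3f_co
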