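import Pool.Agent.P.MP_26ce3f_co.Hard

/-! Quantifier-free conditions are eventually constant along the multiples of a suitable number,
for polynomial families. -/

namespace Pool.Agent.P.MP_26ce3f_co

open Polynomial Filter

/-- The property holds for all large multiples of some positive number. -/
def Ev (p : ℕ → Prop) : Prop := ∃ m, 0 < m ∧ ∀ᶠ n in atTop, m ∣ n → p n

theorem Ev.mono {p q : ℕ → Prop} (h : Ev p) (hpq : ∀ n, p n → q n) : Ev q := by
  obtain ⟨m, hm, h⟩ := h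
  exact ⟨m, hm, h.mono fun n hn hd => hpq n (hn hd)⟩

theorem Ev.and {p q : ℕ → Prop} (h : Ev p) (h' : Ev q) : Ev fun n => p n ∧ q n := by
  obtain ⟨m, hm, h⟩ := h
  obtain ⟨m', hm', h'⟩ := h'
  exact ⟨m * m', Nat.mul_pos hm hm', (h.and h').mono fun n hn hd =>
    ⟨hn.1 ((Nat.dvd_mul_right _ _).trans hd), hn.2 ((Nat.dvd_mul_left _ _).trans hd)⟩⟩

theorem Ev.of_eventually {p : ℕ → Prop} (h : ∀ᶠ n in atTop, p n) : Ev p :=
  ⟨1, Nat.one_pos, h.mono fun _ hn _ => hn⟩

theorem Ev.of_forall {p : ℕ → Prop} (h : ∀ n, p n) : Ev p := Ev.of_eventually (.of_forall h)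

theorem Ev.forall_list {α : Type} (l : List α) {p : α → ℕ → Prop} (h : ∀ a ∈ l, Ev (p a)) :
    Ev fun n => ∀ a ∈ l, p a n := by
  induction l with
  | nil => exact Ev.of_forall (by simp)
  | cons a l ih =>
    exact ((h a (by simp)).and (ih fun b hb => h b (by simp [hb]))).mono fun n hn =>
      List.forall_mem_cons.2 hn

theorem Ev.exists_sq {p : ℕ → Prop} (h : Ev p) : ∃ k, p (k * k) := by
  obtain ⟨m, hm, h⟩ := h
  obtain ⟨N, hN⟩ := eventually_atTop.1 h
  exact ⟨m * (N + 1), hN _ (by nlinarith [Nat.mul_pos hm (Nat.succ_pos N)])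
    ((Nat.dvd_mul_right _ _).mul_right _)⟩

theorem Ev.exists_not_sq {p : ℕ → Prop} (h : Ev p) : ∃ n, p n ∧ ¬ ∃ k, k * k = n := by
  obtain ⟨m, hm, h⟩ := h
  obtain ⟨N, hN⟩ := eventually_atTop.1 h
  refine ⟨m * (N + 1) * (m * (N + 1)) + m, hN _ (by nlinarith [Nat.mul_pos hm (Nat.succ_pos N)])
    (Nat.dvd_add ((Nat.dvd_mul_right _ _).mul_right _) dvd_rfl),
    Nat.not_exists_sq (m := m * (N + 1)) (by omega) (by nlinarith)⟩

/-- The function agrees with a rational polynomial on all large multiples of some number. -/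
def PE (f : ℕ → ℤ) : Prop := ∃ Q : ℚ[X], Ev fun n => (f n : ℚ) = Q.eval (n : ℚ)

theorem PE.const (z : ℤ) : PE fun _ => z := ⟨C z, Ev.of_forall (by simp)⟩

theorem PE.add {f g : ℕ → ℤ} (hf : PE f) (hg : PE g) : PE fun n => f n + g n := by
  obtain ⟨P, hP⟩ := hf
  obtain ⟨Q, hQ⟩ := hg
  exact ⟨P + Q, (hP.and hQ).mono fun n h => by simp [h.1, h.2]⟩

theorem PE.mul {f g : ℕ → ℤ} (hf : PE f) (hg : PE g) : PE fun n => f n * g n := by
  obtain ⟨P, hP⟩ := hf
  obtain ⟨Q, hQ⟩ := hg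
  exact ⟨P * Q, (hP.and hQ).mono fun n h => by simp [h.1, h.2]⟩

theorem PE.congr {f g : ℕ → ℤ} (hf : PE f) (h : Ev fun n => f n = g n) : PE g := by
  obtain ⟨P, hP⟩ := hf
  exact ⟨P, (hP.and h).mono fun n h => h.2 ▸ h.1⟩

theorem PE.neg {f : ℕ → ℤ} (hf : PE f) : PE fun n => -f n :=
  ((PE.const (-1)).mul hf).congr (Ev.of_forall (by simp))

theorem poly_pos {Q : ℚ[X]} (h : 0 < Q.leadingCoeff) : ∀ᶠ n : ℕ in atTop, 0 < Q.eval (n : ℚ) :=
  tendsto_natCast_atTop_atTop.eventually (Q.isEquivalent_atTop_lead.eventually_pos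
    ((eventually_gt_atTop 0).mono fun x hx => by positivity))

theorem poly_sign (Q : ℚ[X]) : Q = 0 ∨ (∀ᶠ n : ℕ in atTop, 0 < Q.eval (n : ℚ)) ∨
    ∀ᶠ n : ℕ in atTop, Q.eval (n : ℚ) < 0 := by
  rcases lt_trichotomy Q.leadingCoeff 0 with h | h | h
  · exact Or.inr (Or.inr ((poly_pos (Q := -Q) (by simpa using h)).mono fun n hn => by
      simpa using hn))
  · exact Or.inl (leadingCoeff_eq_zero.1 h)
  · exact Or.inr (Or.inl (poly_pos h))

theorem PE.sign {f : ℕ → ℤ} (hf : PE f) :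
    (Ev fun n => f n = 0) ∨ (Ev fun n => 0 < f n) ∨ Ev fun n => f n < 0 := by
  obtain ⟨Q, hQ⟩ := hf
  rcases poly_sign Q with rfl | h | h
  · exact Or.inl (hQ.mono fun n hn => by simpa using hn)
  · exact Or.inr (Or.inl ((hQ.and (Ev.of_eventually h)).mono fun n hn => by
      have := hn.2; rw [← hn.1] at this; exact_mod_cast this))
  · exact Or.inr (Or.inr ((hQ.and (Ev.of_eventually h)).mono fun n hn => by
      have := hn.2; rw [← hn.1] at this; exact_mod_cast this))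

theorem int_part (S : ℚ[X]) : Ev fun n => ∃ z : ℤ, S.eval (n : ℚ) = S.eval 0 + z := by
  induction S using Polynomial.induction_on' with
  | add p q hp hq =>
    refine (hp.and hq).mono fun n ⟨⟨z, hz⟩, ⟨z', hz'⟩⟩ => ⟨z + z', ?_⟩
    simp only [eval_add, hz, hz']; push_cast; ring
  | monomial k c =>
    cases k with
    | zero => exact Ev.of_forall fun n => ⟨0, by simp⟩
    | succ k =>
      refine ⟨c.den, c.den_pos, .of_forall ?_⟩
      rintro _ ⟨u, rfl⟩
      refine ⟨c.num * u * (c.den * u) ^ k, ?_⟩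
      have := Rat.mul_den_eq_num c
      simp only [eval_monomial]
      push_cast
      rw [← this]; ring

theorem floor_const (s : ℚ) {ε : ℕ → ℚ} (h : Tendsto ε atTop (nhds 0))
    (h' : (∀ᶠ n in atTop, 0 ≤ ε n) ∨ ∀ᶠ n in atTop, ε n < 0) :
    ∃ κ : ℤ, ∀ᶠ n in atTop, ⌊s + ε n⌋ = κ := by
  rcases h' with h' | h'
  · refine ⟨⌊s⌋, ((h.eventually (gt_mem_nhds (show (0 : ℚ) < ⌊s⌋ + 1 - s by
      linarith [Int.lt_floor_add_one s]))).and h').mono fun n hn => ?_⟩
    rw [Int.floor_eq_iff]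
    constructor <;> linarith [Int.floor_le s, hn.1, hn.2]
  · refine ⟨⌈s⌉ - 1, ((h.eventually (lt_mem_nhds (show (⌈s⌉ - 1 - s : ℚ) < 0 by
      linarith [Int.ceil_lt_add_one s]))).and h').mono fun n hn => ?_⟩
    rw [Int.floor_eq_iff]
    push_cast
    constructor <;> linarith [Int.le_ceil s, hn.1, hn.2]

theorem PE.div_pos {f g : ℕ → ℤ} (hf : PE f) (hg : PE g) (h : Ev fun n => 0 < g n) :
    PE fun n => f n / g n := by
  obtain ⟨P, hP⟩ := hf
  obtain ⟨Q, hQ⟩ := hg
  have hQ0 : Q ≠ 0 := by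
    rintro rfl
    obtain ⟨k, h1, h2⟩ := (hQ.and h).exists_sq
    simp only [eval_zero, Int.cast_eq_zero] at h1
    omega
  have hQp : ∀ᶠ n : ℕ in atTop, 0 < Q.eval (n : ℚ) := by
    rcases poly_sign Q with h1 | h1 | h1
    · exact absurd h1 hQ0
    · exact h1
    · obtain ⟨k, ⟨h2, h3⟩, h4⟩ := ((hQ.and h).and (Ev.of_eventually h1)).exists_sq
      rw [← h2] at h4
      exact absurd h3 (not_lt.2 (by exact_mod_cast h4.le))
  obtain ⟨κ, hκ⟩ := floor_const ((P / Q).eval 0)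
    (ε := fun n => (P % Q).eval (n : ℚ) / Q.eval (n : ℚ))
    ((div_tendsto_atTop_zero_of_degree_lt _ _ (degree_mod_lt P hQ0)).comp
      tendsto_natCast_atTop_atTop) (by
      rcases poly_sign (P % Q) with h1 | h1 | h1
      · exact Or.inl (.of_forall fun n => by simp [h1])
      · exact Or.inl ((h1.and hQp).mono fun n hn => (_root_.div_pos hn.1 hn.2).le)
      · exact Or.inr ((h1.and hQp).mono fun n hn => div_neg_of_neg_of_pos hn.1 hn.2))
  refine ⟨P / Q - C ((P / Q).eval 0) + C (κ : ℚ), ((((hP.and hQ).and h).and (int_part (P / Q))).and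
    (Ev.of_eventually hκ)).mono ?_⟩
  rintro n ⟨⟨⟨⟨h1, h2⟩, h3⟩, z, hz⟩, h4⟩
  obtain ⟨d, hd⟩ := Int.eq_ofNat_of_zero_le h3.le
  have e1 := congrArg (eval (n : ℚ)) (EuclideanDomain.div_add_mod P Q)
  have e2 : Q.eval (n : ℚ) ≠ 0 := by rw [← h2]; exact_mod_cast h3.ne'
  have e3 : (f n : ℚ) / d = (P / Q).eval 0 + (P % Q).eval (n : ℚ) / Q.eval (n : ℚ) + z := by
    rw [← Int.cast_natCast, ← hd, h1, h2, ← e1, eval_add, eval_mul, hz]
    field_simp
    ring
  beta_reduce
  rw [hd, ← Rat.floor_intCast_div_natCast, e3, Int.floor_add_intCast, h4]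
  simp [hz]
  ring

theorem PE.div {f g : ℕ → ℤ} (hf : PE f) (hg : PE g) : PE fun n => f n / g n := by
  rcases hg.sign with h | h | h
  · exact (PE.const 0).congr (h.mono fun n hn => by simp [hn])
  · exact hf.div_pos hg h
  · exact (hf.div_pos hg.neg (h.mono fun n hn => by omega)).neg.congr
      (Ev.of_forall fun n => by simp)

theorem Nice.pe {ι : Type} {P : ℕ → ι → ℕ} (hP : ∀ i, PE fun n => (P n i : ℤ))
    {f : (ι → ℕ) → ℤ} (hf : Nice f) : PE fun n => f (P n) := by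
  induction hf with
  | var i => exact hP i
  | const z => exact PE.const z
  | add _ _ h1 h2 => exact h1.add h2
  | mul _ _ h1 h2 => exact h1.mul h2
  | div d hd _ h ih =>
    exact (ih.div (PE.const d)).congr (Ev.of_forall fun n => by
      rw [h, Int.mul_ediv_cancel_left _ (by omega)])

variable {ι : Type} {V : Set ι}

theorem IsTerm.pe {c : ℕ → ι → ℤ} (hc : ∀ i, PE fun n => c n i) {f : (ι → ℤ) → ℤ}
    (hf : IsTerm V f) : PE fun n => f (c n) := by
  induction hf with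
  | var i => exact hc i
  | const z => exact PE.const z
  | add _ _ h1 h2 => exact h1.add h2
  | mul _ _ h1 h2 => exact h1.mul h2
  | div _ _ h1 h2 => exact h1.div h2

theorem IsQF.ev {c : ℕ → ι → ℤ} (hc : ∀ i, PE fun n => c n i) {φ : (ι → ℤ) → Prop}
    (hφ : IsQF V φ) : (Ev fun n => φ (c n)) ∨ Ev fun n => ¬ φ (c n) := by
  induction hφ with
  | le h1 h2 =>
    rcases ((h1.pe hc).add (h2.pe hc).neg).sign with h | h | h
    · exact Or.inl (h.mono fun n hn => by omega)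
    · exact Or.inr (h.mono fun n hn => by omega)
    · exact Or.inl (h.mono fun n hn => by omega)
  | not _ ih => exact ih.symm.imp id fun h => h.mono fun n => not_not.2
  | and _ _ h1 h2 =>
    rcases h1 with h1 | h1
    · rcases h2 with h2 | h2
      · exact Or.inl (h1.and h2)
      · exact Or.inr (h2.mono fun n hn h => hn h.2)
    · exact Or.inr (h1.mono fun n hn h => hn h.1)

theorem IsTerm.congr {c c' : ι → ℤ} (h : ∀ i ∈ V, c i = c' i) {f : (ι → ℤ) → ℤ}
    (hf : IsTerm V f) : f c = f c' := by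
  induction hf with
  | var i hi => exact h i hi
  | const z => rfl
  | add _ _ h1 h2 => simp only [h1, h2]
  | mul _ _ h1 h2 => simp only [h1, h2]
  | div _ _ h1 h2 => simp only [h1, h2]

theorem IsQF.congr {c c' : ι → ℤ} (h : ∀ i ∈ V, c i = c' i) {φ : (ι → ℤ) → Prop}
    (hφ : IsQF V φ) : φ c ↔ φ c' := by
  induction hφ with
  | le h1 h2 => simp only [h1.congr h, h2.congr h]
  | not _ ih => exact not_congr ih
  | and _ _ h1 h2 => exact and_congr h1 h2

theorem not_qf (t : ℕ) (ht : 2 ≤ t) : ∃ k0 : ℕ, ∀ k, k0 ≤ k →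
    ¬ ∃ φ : (List (Fin k) → ℤ) → Prop, IsQF {u | u.length ≤ t} φ ∧
      (∀ w : List (Fin k), φ fun u => occ w u) ∧
      ∀ c : List (Fin k) → ℕ, (φ fun u => c u) →
        ∃ w : List (Fin k), ∀ u : List (Fin k), u.length = t → occ w u = c u := by
  obtain ⟨k0, h⟩ := (pres_qs.of_le ht).final ht
  refine ⟨k0, fun k hk => ?_⟩
  rintro ⟨φ, hφ, h1, h2⟩
  obtain ⟨G, hG, hG'⟩ := h k hk
  let P : ℕ → Fin 6 → ℕ := fun n => ![n, 0, 0, n, 1, 0]
  have hn : PE fun n => (n : ℤ) := ⟨X, Ev.of_forall (by simp)⟩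
  have hP : ∀ i, PE fun n => (P n i : ℤ) := fun i => by
    fin_cases i
    exacts [hn, PE.const 0, PE.const 0, hn, PE.const 1, PE.const 0]
  have hsq : ∀ r, ∃ w, Eqv t (ws w) (G (P (r * r))) := fun r => (hG' _).1
    ⟨r, 0, r, Nat.le_mul_self r, Nat.zero_le _, Nat.le_mul_self r, by simp [P], by simp [P]⟩
  have hpos : ∀ u : List (Fin k), u.length ≤ t → Ev fun n => 0 ≤ G (P n) u := by
    intro u hu
    rcases ((hG u).pe hP).sign with h | h | h
    · exact h.mono fun n hn => hn.ge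
    · exact h.mono fun n hn => hn.le
    · obtain ⟨r, hr⟩ := h.exists_sq
      obtain ⟨w, hw⟩ := hsq r
      rw [← hw u hu, ws_apply] at hr
      omega
  have habs : ∀ u, PE fun n => ((G (P n) u).natAbs : ℤ) := by
    intro u
    have := (hG u).pe hP
    rcases this.sign with h | h | h
    · exact this.congr (h.mono fun n hn => by omega)
    · exact this.congr (h.mono fun n hn => by omega)
    · exact this.neg.congr (h.mono fun n hn => by omega)
  rcases hφ.ev (c := fun n u => ((G (P n) u).natAbs : ℤ)) habs with h | h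
  · obtain ⟨n, ⟨h3, h4⟩, h5⟩ := (h.and (Ev.forall_list (words k t)
      fun u hu => hpos u (mem_words.1 hu).le)).exists_not_sq
    obtain ⟨w, hw⟩ := h2 _ h3
    obtain ⟨x, y, z, _, _, _, e, _⟩ := (hG' (P n)).2 ⟨w, fun u hu => by
      have := h4 u (mem_words.2 hu)
      rw [ws_apply, hw u hu]; omega⟩
    exact h5 ⟨x, by simpa [P] using e⟩
  · obtain ⟨r, hr⟩ := h.exists_sq
    obtain ⟨w, hw⟩ := hsq r
    refine hr ((hφ.congr fun u hu => ?_).1 (h1 w))
    rw [← hw u hu, ws_apply]; simp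

end Pool.Agent.P.MP_26ce3f_co
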