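import Pool.Agent.P.MP_26ce3f_co.Base

/-! The bounded quadratic system of Manders and Adleman as a spectrum problem. -/

namespace Pool.Agent.P.MP_26ce3f_co

/-- Solvability of `X² + K y = H X + τ`, `X = M z + ρ` in numbers at most `B`, where
`p = (B, K, H, τ, M, ρ)`. -/
def QS (p : Fin 6 → ℕ) : Prop := ∃ X y z : ℕ, X ≤ p 0 ∧ y ≤ p 0 ∧ z ≤ p 0 ∧
  X * X + p 1 * y = p 2 * X + p 3 ∧ X = p 4 * z + p 5

/-- The shape of the system. -/
def qsShape : Shape (Fin 4) (Fin 6) (Fin 17) where
  con := ![0, 0, 1, 1, 2, 2, 2, 3, 3, 3, 3, 3, 4, 4, 5, 5, 5]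
  la := ![some (0, true), none, some (0, false), none, some (0, true), some (2, true),
    some (0, false), some (0, true), some (2, false), some (0, true), some (0, false), none,
    some (0, true), some (3, false), some (3, true), some (0, false), none]
  lc := ![none, some (1, false), none, some (1, true), some (1, true), none, none, some (1, false),
    none, none, none, none, none, none, none, none, none]
  dis := by decide

theorem pres_qs : Pres QS 2 := by
  have v := fun i : Fin 6 => Nice.var (ι := Fin 6) i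
  refine pres_sys qsShape (fun p => p 0)
    (fun p => ![0, 1, 0, 1, 0, 0, 0, 0, 0, 0, 0, p 3, 0, 0, 0, 0, p 5])
    (fun p => ![1, 0, 1, 0, 0, p 1, p 2, 0, p 1, p 2, p 0, 1, 1, p 4, p 4, 1, 1])
    (fun p => ![p 0, p 0, p 2 * p 0 + p 3, p 0 * p 0 + p 1 * p 0, p 4 * p 0 + p 5, p 0])
    (v 0) (fun j => ?_) (fun j => ?_) (fun e => ?_) QS ?_ ?_
  · fin_cases j <;> first | exact Nice.const 0 | exact Nice.const 1 | exact v _
  · fin_cases j <;> first | exact Nice.const 0 | exact Nice.const 1 | exact v _
  · fin_cases e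
    · exact v 0
    · exact v 0
    · exact ((v 2).mul (v 0)).add (v 3)
    · exact ((v 0).mul (v 0)).add ((v 1).mul (v 0))
    · exact ((v 4).mul (v 0)).add (v 5)
    · exact v 0
  · rintro p ⟨X, y, z, hX, hy, hz, e1, e2⟩
    refine ⟨![X, X, y, z], fun i => by fin_cases i <;> assumption, fun e => ?_⟩
    rw [Finset.sum_filter]
    fin_cases e <;> simp [Fin.sum_univ_succ, qsShape, val, lit]
    all_goals zify [hX, hy, hz] at e1 e2 ⊢
    · ring
    · ring
    · linear_combination e1
    · linear_combination -e1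
    · linear_combination e2
    · linear_combination -e2
  · intro p X hX h
    have h0 := h 0
    have h1 := h 1
    have h2 := h 2
    have h3 := h 3
    have h4 := h 4
    have h5 := h 5
    rw [Finset.sum_filter] at h0 h1 h2 h3 h4 h5
    simp [Fin.sum_univ_succ, qsShape, val, lit] at h0 h1 h2 h3 h4 h5
    have b0 := hX 0
    have b1 := hX 1
    have b2 := hX 2
    have b3 := hX 3
    have e : X 1 = X 0 := by omega
    rw [e] at h2 h3
    refine ⟨X 0, X 2, X 3, b0, b2, b3, ?_, ?_⟩
    · zify [b0, b2, b3] at h2 h3 ⊢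
      linarith
    · zify [b0, b2, b3] at h4 h5 ⊢
      linarith

end Pool.Agent.P.MP_26ce3f_co
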