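import Pool.Agent.P.MP_26ce3f_co.Lift

/-! Degree two: cutting a word into segments by separators. -/

namespace Pool.Agent.P.MP_26ce3f_co

open Ser

variable {α ι L σ : Type}

section
variable [DecidableEq α]

theorem occ2_append (P Q : List α) (x y : α) :
    occ (P ++ Q) [x, y] = occ P [x, y] + P.count x * Q.count y + occ Q [x, y] := by
  have h : ws (P ++ Q) [x, y] = (ws P * ws Q) [x, y] := by rw [ws_append]
  simp only [mul_cons, mul_nil, der_apply, ws_apply, occ_nil_right, occ_single] at h
  omega

theorem occ2_cons (a : α) (w : List α) (x y : α) :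
    occ (a :: w) [x, y] = occ w [x, y] + if a = x then w.count y else 0 := by
  rw [occ_cons, occ_single]

theorem occ2_left {w : List α} {x : α} (y : α) (h : x ∉ w) : occ w [x, y] = 0 := by
  by_contra h0
  exact h (((occ_pos_iff _ _).1 (Nat.pos_of_ne_zero h0)).subset (by simp))

theorem occ2_right {w : List α} (x : α) {y : α} (h : y ∉ w) : occ w [x, y] = 0 := by
  by_contra h0
  exact h (((occ_pos_iff _ _).1 (Nat.pos_of_ne_zero h0)).subset (by simp))

theorem occ2_replicate (n : ℕ) (a : α) {x y : α} (h : x ≠ y) :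
    occ (List.replicate n a) [x, y] = 0 := by
  by_cases hx : x = a
  · exact occ2_right _ fun hy => h (hx.trans (List.eq_of_mem_replicate hy).symm)
  · exact occ2_left _ fun hx' => hx (List.eq_of_mem_replicate hx')

theorem occ2_diag (w : List α) (x : α) : occ w [x, x] = (w.count x).choose 2 :=
  occ_replicate w x 2

theorem occ2_swap (w : List α) {x y : α} (h : x ≠ y) :
    occ w [x, y] + occ w [y, x] = w.count x * w.count y := by
  induction w with
  | nil => simp
  | cons a w ih =>
    rw [occ2_cons, occ2_cons, List.count_cons, List.count_cons]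
    by_cases h1 : a = x
    · subst h1; simp [h]; nlinarith
    · by_cases h2 : a = y
      · subst h2; simp [h1]; nlinarith
      · simp [h1, h2, ih]

theorem occ2_mul_le {w : List α} {x m y : α} (hm : w.count m = 1) (hx : x ≠ m) (hy : y ≠ m) :
    occ w [x, m] * occ w [m, y] ≤ occ w [x, y] := by
  obtain ⟨P, Q, rfl⟩ := List.append_of_mem (List.count_pos_iff.1 (by omega : 0 < w.count m))
  simp only [List.count_append, List.count_cons_self] at hm
  have hP : m ∉ P := List.count_eq_zero.1 (by omega)
  have hQ : m ∉ Q := List.count_eq_zero.1 (by omega)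
  simp only [occ2_append, occ2_cons, occ2_left _ hP, occ2_left _ hQ, occ2_right _ hP,
    occ2_right _ hQ, List.count_eq_zero.2 hP, List.count_eq_zero.2 hQ, List.count_cons_self,
    List.count_cons_of_ne hy.symm, if_neg hx.symm, if_true]
  simp only [zero_add, add_zero, mul_one, zero_mul]
  omega

theorem eqv_one_of_perm {v w : List α} (h : v.Perm w) : Eqv 1 (ws v) (ws w) := by
  intro u hu
  match u, hu with
  | [], _ => simp
  | [a], _ => simp [ws_apply, occ_single, h.count_eq]

theorem exists_comm (x y : α) : ∃ κ : Ser α, Fr κ ∧ Sh 1 κ 1 (ws [x, y] - ws [y, x]) := by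
  obtain ⟨h', hh⟩ := exists_inv (ws_one [y, x])
  have hF : Fr h' := fun t => ⟨[y, x], [], by rw [hh, ws_nil]; exact Eqv.refl _ _⟩
  refine ⟨h' * ws [x, y], hF.mul (Fr.ws _), ?_⟩
  have := (Sh.refl 1 hF.one).mul
    (Sh.of_eqv (ws_one _) (eqv_one_of_perm (List.Perm.swap y x [])))
  rwa [hh, zero_add] at this

end

variable [DecidableEq L] [DecidableEq σ]

attribute [local instance high] instBEqOfDecidableEq

/-- Segments, each followed by its own separator. -/
def join (W : σ → List L) (S : List σ) : List (L ⊕ σ) :=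
  S.flatMap fun s => (W s).map Sum.inl ++ [Sum.inr s]

omit [DecidableEq L] [DecidableEq σ] in
theorem inr_mem_join {W : σ → List L} {S : List σ} {s : σ} (h : Sum.inr s ∈ join W S) : s ∈ S := by
  simpa [join] using h

theorem split_join (W0 : σ → List L) (S : List σ) (hS : S.Nodup) (w : List (L ⊕ σ))
    (h1 : ∀ x, w.count x = (join W0 S).count x)
    (h2 : ∀ x s, x ≠ Sum.inr s → occ w [x, Sum.inr s] = occ (join W0 S) [x, Sum.inr s]) :
    ∃ W : σ → List L, w = join W S ∧ ∀ s ∈ S, (W s).Perm (W0 s) := by
  induction S generalizing w with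
  | nil =>
    refine ⟨W0, ?_, by simp⟩
    cases w with
    | nil => rfl
    | cons a w => simpa [join] using h1 a
  | cons s S ih =>
    obtain ⟨hs, hS'⟩ := List.nodup_cons.1 hS
    have e0 : ∀ W : σ → List L, join W (s :: S) = (W s).map Sum.inl ++ Sum.inr s :: join W S :=
      fun W => by simp [join]
    have n1 : ∀ (v : List L) (r : σ), (Sum.inr r : L ⊕ σ) ∉ v.map Sum.inl := fun v r => by simp
    have n2 : Sum.inr s ∉ join W0 S := fun h => hs (inr_mem_join h)
    rw [e0] at h1 h2
    have c1 := h1 (Sum.inr s)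
    rw [List.count_append, List.count_cons_self, List.count_eq_zero.2 (n1 _ _),
      List.count_eq_zero.2 n2] at c1
    obtain ⟨P, Q, rfl⟩ := List.append_of_mem
      (List.count_pos_iff.1 (by omega : 0 < w.count (Sum.inr s)))
    simp only [List.count_append, List.count_cons_self] at c1
    have hP : Sum.inr s ∉ P := List.count_eq_zero.1 (by omega)
    have hQ : Sum.inr s ∉ Q := List.count_eq_zero.1 (by omega)
    have cP : ∀ x, P.count x = ((W0 s).map Sum.inl).count x := by
      intro x
      by_cases hx : x = Sum.inr s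
      · rw [hx, List.count_eq_zero.2 hP, List.count_eq_zero.2 (n1 _ _)]
      · have := h2 x s hx
        simpa only [occ2_append, occ2_cons, occ2_right _ hP, occ2_right _ hQ, occ2_right _ n2,
          occ2_right _ (n1 _ _), List.count_eq_zero.2 hQ, List.count_eq_zero.2 n2,
          List.count_cons_self, ite_self, zero_add, add_zero, mul_one] using this
    have hperm : P.Perm ((W0 s).map Sum.inl) := List.perm_iff_count.2 cP
    obtain ⟨Ws, rfl⟩ : ∃ Ws : List L, P = Ws.map Sum.inl := by
      rcases map_or_out Sum.inl P with h | ⟨c, hc, hc'⟩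
      · exact h
      · obtain ⟨a, _, ha⟩ := List.mem_map.1 (hperm.subset hc)
        exact absurd ha (hc' a)
    have cQ : ∀ x, Q.count x = (join W0 S).count x := by
      intro x
      have := h1 x
      simp only [List.count_append, List.count_cons, cP] at this
      omega
    obtain ⟨W, rfl, hW⟩ := ih hS' Q cQ fun x r hx => by
      have := h2 x r hx
      simp only [occ2_append, occ2_cons, occ2_right _ (n1 _ _), List.count_cons, cP, cQ] at this
      omega
    refine ⟨Function.update W s Ws, ?_, fun r hr => ?_⟩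
    · rw [e0, Function.update_self]
      congr 2
      unfold join
      refine List.flatMap_congr fun r hr => ?_
      rw [Function.update_of_ne (fun h : r = s => hs (h ▸ hr))]
    · rcases List.mem_cons.1 hr with rfl | hr'
      · rw [Function.update_self]
        exact (List.map_perm_map_iff Sum.inl_injective).1 hperm
      · rw [Function.update_of_ne (fun h : r = s => hs (h ▸ hr'))]
        exact hW r hr'

theorem sh_join [Fintype σ] {W W0 : σ → List L} (h : ∀ s, (W s).Perm (W0 s)) :
    Sh 1 (ws (join W Finset.univ.toList)) (ws (join W0 Finset.univ.toList))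
      (∑ s, mapS Sum.inl (ws (W s) - ws (W0 s))) := by
  have hi : Function.Injective (Sum.inl : L → L ⊕ σ) := Sum.inl_injective
  unfold join
  rw [ws_flatMap, ws_flatMap, ← Finset.sum_map_toList]
  refine Sh.listProd _ _ _ _ fun s _ => ?_
  rw [ws_append, ws_append, ws_map hi, ws_map hi]
  simpa using ((Sh.of_eqv (ws_one _) (eqv_one_of_perm (h s))).mapS hi).mul
    (Sh.refl 1 (ws_one [Sum.inr s]))

/-- A system of segments with prescribed letter counts and prescribed totals in degree two. -/
theorem pres_of_seg [Fintype L] [Fintype σ] (W0 : (ι → ℕ) → σ → List L)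
    (hW0 : ∀ s, NiceS fun p => ws (W0 p s)) (κ Z : (ι → ℕ) → Ser L) (hF : ∀ p, Fr (κ p))
    (hN : NiceS κ) (hκ : ∀ p, Sh 1 (κ p) 1 (Z p)) (φ : (ι → ℕ) → Prop)
    (hφ : ∀ p, φ p ↔ ∃ W : σ → List L, (∀ s, (W s).Perm (W0 p s)) ∧
      ∀ x y, ∑ s, (occ (W s) [x, y] : ℤ) = ∑ s, (occ (W0 p s) [x, y] : ℤ) + Z p [x, y]) :
    Pres φ 2 := by
  have hi : Function.Injective (Sum.inl : L → L ⊕ σ) := Sum.inl_injective
  have h0 : ∀ p, Sh 1 (ws (join (W0 p) Finset.univ.toList) * mapS Sum.inl (κ p))
      (ws (join (W0 p) Finset.univ.toList)) (mapS Sum.inl (Z p)) := by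
    intro p
    have := (Sh.refl 1 (ws_one (join (W0 p) Finset.univ.toList))).mul ((hκ p).mapS hi)
    rwa [← ws_nil, ← ws_map hi, List.map_nil, ws_nil, mul_one, zero_add] at this
  refine ⟨L ⊕ σ, inferInstance, inferInstance,
    fun p => ws (join (W0 p) Finset.univ.toList) * mapS Sum.inl (κ p),
    fun p => (Fr.ws _).mul ((hF p).mapS hi), NiceS.mul ?_ (hN.mapS hi),
    fun p => (hφ p).trans ⟨?_, ?_⟩⟩
  · refine (NiceS.listProd Finset.univ.toList
      (f := fun s p => mapS Sum.inl (ws (W0 p s)) * ws [Sum.inr s])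
      fun s _ => ((hW0 s).mapS hi).mul (NiceS.const _)).of_eq fun p => ?_
    simp only [join, ws_flatMap, ws_append, ws_map hi]
  · rintro ⟨W, hW, hs⟩
    refine ⟨join W Finset.univ.toList, ((sh_join hW).trans (h0 p).symm).eqv_succ fun v hv => ?_⟩
    rw [Ser.add_apply, Ser.sum_apply, Ser.neg_apply]
    rcases map_or_out Sum.inl v with ⟨u, rfl⟩ | ⟨c, hc, hc'⟩
    · obtain ⟨x, y, rfl⟩ := List.length_eq_two.1 (show u.length = 2 by simpa using hv)
      simp only [mapS_map hi, sub_apply, Finset.sum_sub_distrib, ws_apply, hs]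
      ring
    · simp [mapS_out _ hc hc']
  · rintro ⟨w, hw⟩
    beta_reduce at hw
    obtain ⟨W, rfl, hW⟩ := split_join (W0 p) _ (Finset.nodup_toList Finset.univ) w
      (fun x => by
        have := (hw [x] (by simp)).trans ((h0 p).eqv [x] (by simp))
        simpa [ws_apply, occ_single] using this)
      fun x s _ => by
        have := (hw [x, Sum.inr s] (by simp)).trans ((h0 p).top _ (by simp))
        rw [mapS_out _ (b := Sum.inr s) (by simp) (by simp)] at this
        simpa [ws_apply] using this
    have hW' : ∀ s, (W s).Perm (W0 p s) := fun s => hW s (by simp)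
    refine ⟨W, hW', fun x y => ?_⟩
    have e1 := (hw ([x, y].map Sum.inl) (by simp)).trans ((h0 p).top _ (by simp))
    rw [(sh_join hW').top _ (by simp), Ser.sum_apply] at e1
    simp only [mapS_map hi, sub_apply, Finset.sum_sub_distrib, ws_apply] at e1
    omega

end Pool.Agent.P.MP_26ce3f_co
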