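import Pool.Agent.P.MP_26ce3f_co.Defs

/-! Noncommutative power series with integer coefficients and the Magnus series of a word. -/

namespace Pool.Agent.P.MP_26ce3f_co

variable {α β : Type}

/-- Noncommutative formal power series. -/
def Ser (α : Type) : Type := List α → ℤ

namespace Ser

instance : AddCommGroup (Ser α) := inferInstanceAs (AddCommGroup (List α → ℤ))

/-- Left derivative. -/
def der (a : α) (f : Ser α) : Ser α := fun v => f (a :: v)

/-- Cauchy product. -/
def mulF (f g : Ser α) : List α → ℤ
  | [] => f [] * g []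
  | a :: u => f [] * g (a :: u) + mulF (der a f) g u

instance : Mul (Ser α) := ⟨mulF⟩
instance : One (Ser α) := ⟨fun u => match u with | [] => 1 | _ :: _ => 0⟩

@[ext] theorem ext {f g : Ser α} (h : ∀ u, f u = g u) : f = g := funext h

@[simp] theorem add_apply (f g : Ser α) (u : List α) : (f + g) u = f u + g u := rfl
@[simp] theorem sub_apply (f g : Ser α) (u : List α) : (f - g) u = f u - g u := rfl
@[simp] theorem neg_apply (f : Ser α) (u : List α) : (-f) u = -f u := rfl
@[simp] theorem zero_apply (u : List α) : (0 : Ser α) u = 0 := rfl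
@[simp] theorem zsmul_apply (z : ℤ) (f : Ser α) (u : List α) : (z • f) u = z * f u := rfl
@[simp] theorem nsmul_apply (n : ℕ) (f : Ser α) (u : List α) : (n • f) u = n * f u := by
  show n • f u = _
  simp
@[simp] theorem one_nil : (1 : Ser α) [] = 1 := rfl
@[simp] theorem one_cons (a : α) (u : List α) : (1 : Ser α) (a :: u) = 0 := rfl
@[simp] theorem der_apply (a : α) (f : Ser α) (u : List α) : der a f u = f (a :: u) := rfl
@[simp] theorem mul_nil (f g : Ser α) : (f * g) [] = f [] * g [] := rfl
theorem mul_cons (f g : Ser α) (a : α) (u : List α) :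
    (f * g) (a :: u) = f [] * g (a :: u) + (der a f * g) u := rfl

theorem der_add (a : α) (f g : Ser α) : der a (f + g) = der a f + der a g := rfl
theorem der_one (a : α) : der a (1 : Ser α) = 0 := rfl
theorem der_zero (a : α) : der a (0 : Ser α) = 0 := rfl
theorem der_smul (a : α) (z : ℤ) (f : Ser α) : der a (z • f) = z • der a f := rfl
theorem der_mul (a : α) (f g : Ser α) : der a (f * g) = f [] • der a g + der a f * g := rfl

theorem zero_mul' (g : Ser α) : 0 * g = 0 := by
  ext u
  induction u with
  | nil => simp
  | cons a u ih => rw [mul_cons, der_zero, ih]; simp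

theorem mul_zero' (f : Ser α) : f * 0 = 0 := by
  ext u
  induction u generalizing f with
  | nil => simp
  | cons a u ih => rw [mul_cons, ih]; simp

theorem add_mul' (f g h : Ser α) : (f + g) * h = f * h + g * h := by
  ext u
  induction u generalizing f g with
  | nil => simp; ring
  | cons a u ih => rw [add_apply, mul_cons, mul_cons, mul_cons, der_add, ih]; simp; ring

theorem mul_add' (f g h : Ser α) : f * (g + h) = f * g + f * h := by
  ext u
  induction u generalizing f with
  | nil => simp; ring
  | cons a u ih => rw [add_apply, mul_cons, mul_cons, mul_cons, ih]; simp; ring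

theorem smul_mul' (z : ℤ) (f g : Ser α) : (z • f) * g = z • (f * g) := by
  ext u
  induction u generalizing f with
  | nil => simp; ring
  | cons a u ih => rw [zsmul_apply, mul_cons, mul_cons, der_smul, ih]; simp; ring

theorem one_mul' (f : Ser α) : 1 * f = f := by
  ext u
  cases u with
  | nil => simp
  | cons a u => rw [mul_cons, der_one, zero_mul']; simp

theorem mul_one' (f : Ser α) : f * 1 = f := by
  ext u
  induction u generalizing f with
  | nil => simp
  | cons a u ih => rw [mul_cons, ih]; simp

theorem mul_assoc' (f g h : Ser α) : f * g * h = f * (g * h) := by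
  ext u
  induction u generalizing f g with
  | nil => simp; ring
  | cons a u ih =>
    rw [mul_cons, mul_cons, mul_cons, der_mul, add_mul', smul_mul', add_apply, ih]
    simp; ring

instance : Ring (Ser α) where
  left_distrib := mul_add'
  right_distrib := add_mul'
  zero_mul := zero_mul'
  mul_zero := mul_zero'
  mul_assoc := mul_assoc'
  one_mul := one_mul'
  mul_one := mul_one'

theorem sum_apply {ι : Type} (s : Finset ι) (f : ι → Ser α) (u : List α) :
    (∑ i ∈ s, f i) u = ∑ i ∈ s, f i u := by
  classical
  induction s using Finset.induction_on with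
  | empty => simp
  | insert i s hi ih => rw [Finset.sum_insert hi, Finset.sum_insert hi, add_apply, ih]

theorem mul_natCast (f : Ser α) (n : ℕ) (u : List α) : (f * (n : Ser α)) u = n * f u := by
  rw [← nsmul_eq_mul', nsmul_apply]

theorem natCast_mul (f : Ser α) (n : ℕ) (u : List α) : ((n : Ser α) * f) u = n * f u := by
  rw [← nsmul_eq_mul, nsmul_apply]

end Ser

open Ser

/-- Agreement up to degree `t`. -/
def Eqv (t : ℕ) (f g : Ser α) : Prop := ∀ u : List α, u.length ≤ t → f u = g u

theorem Eqv.refl (t : ℕ) (f : Ser α) : Eqv t f f := fun _ _ => rfl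
theorem Eqv.symm {t : ℕ} {f g : Ser α} (h : Eqv t f g) : Eqv t g f := fun u hu => (h u hu).symm
theorem Eqv.trans {t : ℕ} {f g k : Ser α} (h : Eqv t f g) (h' : Eqv t g k) : Eqv t f k :=
  fun u hu => (h u hu).trans (h' u hu)
theorem Eqv.mono {s t : ℕ} {f g : Ser α} (h : Eqv t f g) (hs : s ≤ t) : Eqv s f g :=
  fun u hu => h u (hu.trans hs)

theorem Eqv.mul {t : ℕ} {f f' g g' : Ser α} (h : Eqv t f f') (h' : Eqv t g g') :
    Eqv t (f * g) (f' * g') := by
  intro u hu
  induction u generalizing f f' t with
  | nil => simp [h [] hu, h' [] hu]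
  | cons a u ih =>
    cases t with
    | zero => simp at hu
    | succ t =>
      rw [mul_cons, mul_cons, h [] (by simp), h' _ hu,
        ih (t := t) (f := der a f) (f' := der a f')
          (fun v hv => h (a :: v) (by simpa using hv)) (h'.mono (by omega))
          (by simpa using hu)]

/-- The series vanishes in degrees below `n`. -/
def Van (n : ℕ) (f : Ser α) : Prop := ∀ u : List α, u.length < n → f u = 0

theorem Van.mul {m n : ℕ} {f g : Ser α} (hf : Van m f) (hg : Van n g) : Van (m + n) (f * g) := by
  intro u hu
  induction u generalizing f m with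
  | nil =>
    rcases Nat.eq_zero_or_pos m with rfl | hm
    · simp [hg [] (by simpa using hu)]
    · simp [hf [] hm]
  | cons a u ih =>
    cases m with
    | zero =>
      rw [mul_cons, hg _ (by simpa using hu), ih (m := 0) (fun v hv => by simp at hv)
        (by simp at hu ⊢; omega)]
      simp
    | succ m =>
      rw [mul_cons, hf [] (by simp), ih (m := m) (f := der a f)
        (fun v hv => hf (a :: v) (by simpa using hv)) (by simp at hu; omega)]
      simp

theorem Van.zero (f : Ser α) : Van 0 f := fun u hu => by simp at hu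

theorem Van.pow {f : Ser α} (hf : Van 1 f) (k : ℕ) : Van k (f ^ k) := by
  induction k with
  | zero => exact Van.zero _
  | succ k ih => rw [pow_succ]; exact ih.mul hf

theorem Van.mul_left {n : ℕ} {f g : Ser α} (hf : Van n f) (u : List α) (hu : u.length = n) :
    (f * g) u = f u * g [] := by
  induction u generalizing f n with
  | nil => simp
  | cons a u ih =>
    subst hu
    rw [mul_cons, hf [] (by simp), ih (n := u.length) (f := der a f)
      (fun v hv => hf (a :: v) (by simpa using hv)) rfl]
    simp

theorem Van.mul_right {n : ℕ} {f g : Ser α} (hg : Van n g) (u : List α) (hu : u.length = n) :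
    (f * g) u = f [] * g u := by
  cases u with
  | nil => simp
  | cons a u =>
    rw [mul_cons, ((Van.zero _).mul hg) u (by simp at hu; omega)]
    simp

theorem eqv_iff_van {t : ℕ} {f g : Ser α} : Eqv t f g ↔ Van (t + 1) (f - g) :=
  ⟨fun h u hu => by simp [h u (by omega)], fun h u hu => by
    have := h u (by omega); simp at this; omega⟩

/-- Series with constant term one have a left inverse. -/
theorem exists_inv {h : Ser α} (h1 : h [] = 1) : ∃ h' : Ser α, h' * h = 1 := by
  have hv : Van 1 (1 - h) := fun u hu => by
    have : u = [] := List.length_eq_zero_iff.1 (by omega)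
    subst this; simp [h1]
  let G : ℕ → Ser α := fun n => ∑ k ∈ Finset.range (n + 1), (1 - h) ^ k
  have hG : ∀ m n, m ≤ n → Eqv m (G m) (G n) := by
    intro m n hmn u hu
    induction n, hmn using Nat.le_induction with
    | base => rfl
    | succ n hn ih =>
      rw [ih]
      simp only [G]
      rw [Finset.sum_range_succ _ (n + 1), add_apply, hv.pow (n + 1) u (by omega), add_zero]
  refine ⟨fun u => G u.length u, Ser.ext fun u => ?_⟩
  have e1 : Eqv u.length (fun v => G v.length v) (G u.length) := fun v hv' =>
    hG v.length u.length hv' v le_rfl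
  rw [(e1.mul (Eqv.refl _ h)) u le_rfl]
  have e2 : G u.length * h = 1 - (1 - h) ^ (u.length + 1) := by
    have := geom_sum_mul_neg (1 - h) (u.length + 1)
    rw [sub_sub_cancel] at this
    exact this
  rw [e2, sub_apply, hv.pow _ u (by omega), sub_zero]

/-- `f` and `g` have constant term one, agree up to degree `t` and differ by `z` in degree
`t + 1`. -/
structure Sh (t : ℕ) (f g z : Ser α) : Prop where
  one : g [] = 1
  eqv : Eqv t f g
  top : ∀ u : List α, u.length = t + 1 → f u = g u + z u

theorem Sh.of_eqv {t : ℕ} {f g : Ser α} (h1 : g [] = 1) (h : Eqv t f g) : Sh t f g (f - g) :=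
  ⟨h1, h, fun u _ => by simp⟩

theorem Sh.refl (t : ℕ) {f : Ser α} (h1 : f [] = 1) : Sh t f f 0 :=
  ⟨h1, Eqv.refl _ _, fun u _ => by simp⟩

theorem Sh.one' {t : ℕ} {f g z : Ser α} (h : Sh t f g z) : f [] = 1 := by
  rw [h.eqv [] (by simp), h.one]

theorem Sh.symm {t : ℕ} {f g z : Ser α} (h : Sh t f g z) : Sh t g f (-z) :=
  ⟨h.one', h.eqv.symm, fun u hu => by rw [h.top u hu]; simp⟩

theorem Sh.trans {t : ℕ} {f g k z z' : Ser α} (h : Sh t f g z) (h' : Sh t g k z') :
    Sh t f k (z + z') :=
  ⟨h'.one, h.eqv.trans h'.eqv, fun u hu => by rw [h.top u hu, h'.top u hu]; simp; ring⟩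

theorem Sh.congr {t : ℕ} {f g z z' : Ser α} (h : Sh t f g z)
    (hz : ∀ u : List α, u.length = t + 1 → z u = z' u) : Sh t f g z' :=
  ⟨h.one, h.eqv, fun u hu => by rw [h.top u hu, hz u hu]⟩

theorem Sh.mul {t : ℕ} {f g z f' g' z' : Ser α} (h : Sh t f g z) (h' : Sh t f' g' z') :
    Sh t (f * f') (g * g') (z + z') := by
  refine ⟨by simp [h.one, h'.one], h.eqv.mul h'.eqv, fun u hu => ?_⟩
  have e : f * f' = g * g' + ((f - g) * f' + g * (f' - g')) := by noncomm_ring
  rw [e, add_apply, add_apply, (eqv_iff_van.1 h.eqv).mul_left u hu,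
    (eqv_iff_van.1 h'.eqv).mul_right u hu, h.one, h'.one']
  simp [h.top u hu, h'.top u hu]

theorem Sh.pow {t : ℕ} {f g z : Ser α} (h : Sh t f g z) (n : ℕ) :
    Sh t (f ^ n) (g ^ n) (n • z) := by
  induction n with
  | zero => simpa using Sh.refl t (f := (1 : Ser α)) rfl
  | succ n ih => rw [pow_succ, pow_succ, succ_nsmul]; exact ih.mul h

theorem Sh.eqv_succ {t : ℕ} {f g z : Ser α} (h : Sh t f g z)
    (hz : ∀ u : List α, u.length = t + 1 → z u = 0) : Eqv (t + 1) f g := by
  intro u hu
  rcases Nat.lt_or_ge u.length (t + 1) with h1 | h1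
  · exact h.eqv u (by omega)
  · rw [h.top u (by omega), hz u (by omega), add_zero]

theorem Sh.listProd {ι : Type} {t : ℕ} (l : List ι) (f g z : ι → Ser α)
    (h : ∀ i ∈ l, Sh t (f i) (g i) (z i)) :
    Sh t (l.map f).prod (l.map g).prod (l.map z).sum := by
  induction l with
  | nil => simpa using Sh.refl t (f := (1 : Ser α)) rfl
  | cons i l ih =>
    simp only [List.map_cons, List.prod_cons, List.sum_cons]
    exact (h i (by simp)).mul (ih fun j hj => h j (by simp [hj]))

section Words
variable [DecidableEq α] [DecidableEq β]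

@[simp] theorem occ_nil_right (w : List α) : occ w [] = 1 := by
  unfold occ
  rw [(List.sublists_perm_sublists' w).count_eq]
  induction w with
  | nil => simp
  | cons a w ih =>
    rw [List.sublists'_cons, List.count_append, ih, List.count_eq_zero_of_not_mem (by simp)]

@[simp] theorem occ_nil_left (a : α) (u : List α) : occ [] (a :: u) = 0 := by
  simp [occ]

theorem occ_cons (a b : α) (w u : List α) :
    occ (a :: w) (b :: u) = occ w (b :: u) + if a = b then occ w u else 0 := by
  unfold occ
  rw [(List.sublists_perm_sublists' _).count_eq, (List.sublists_perm_sublists' _).count_eq,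
    (List.sublists_perm_sublists' _).count_eq, List.sublists'_cons, List.count_append]
  congr 1
  split_ifs with h
  · subst h
    exact List.count_map_of_injective _ _ (List.cons_injective (a := a)) _
  · exact List.count_eq_zero_of_not_mem (by simp [h])

theorem occ_pos_iff (w u : List α) : 0 < occ w u ↔ u.Sublist w := by
  unfold occ
  rw [List.count_pos_iff, List.mem_sublists]

theorem occ_single [BEq α] [LawfulBEq α] (w : List α) (a : α) : occ w [a] = w.count a := by
  induction w with
  | nil => simp
  | cons b w ih => rw [occ_cons, ih, List.count_cons]; simp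

theorem occ_le_pow (w u : List α) : occ w u ≤ w.length ^ u.length := by
  induction w generalizing u with
  | nil => cases u <;> simp
  | cons a w ih =>
    cases u with
    | nil => simp
    | cons b u =>
      rw [occ_cons]
      have h1 := ih (b :: u)
      have h2 := ih u
      have h3 : w.length ^ u.length ≤ (w.length + 1) ^ u.length :=
        Nat.pow_le_pow_left (by omega) _
      have h4 := Nat.mul_le_mul_right w.length h3
      simp only [List.length_cons, pow_succ] at h1 ⊢
      split_ifs <;> nlinarith

theorem occ_replicate [BEq α] [LawfulBEq α] (w : List α) (a : α) (r : ℕ) :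
    occ w (List.replicate r a) = (w.count a).choose r := by
  induction w generalizing r with
  | nil => cases r <;> simp [List.replicate_succ]
  | cons b w ih =>
    cases r with
    | zero => simp
    | succ r =>
      rw [List.replicate_succ, occ_cons, ← List.replicate_succ, ih, ih, List.count_cons]
      by_cases h : b = a
      · simp [h, Nat.choose_succ_succ', add_comm]
      · simp [h]

/-- The Magnus series of a word. -/
def ws (w : List α) : Ser α := fun u => occ w u

theorem ws_apply (w u : List α) : ws w u = occ w u := rfl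

@[simp] theorem ws_nil : ws ([] : List α) = 1 := by
  ext u; cases u <;> simp [ws]

@[simp] theorem ws_one (w : List α) : ws w [] = 1 := by simp [ws]

theorem der_ws_single (a b : α) : der b (ws [a]) = if a = b then 1 else 0 := by
  ext u
  rw [der_apply, ws_apply, occ_cons]
  split_ifs
  · cases u <;> simp
  · simp

theorem ws_cons (a : α) (w : List α) : ws (a :: w) = ws [a] * ws w := by
  ext u
  cases u with
  | nil => simp
  | cons b u =>
    rw [mul_cons, der_ws_single, ws_apply, occ_cons]
    split_ifs <;> simp [ws_apply]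

theorem ws_append (v w : List α) : ws (v ++ w) = ws v * ws w := by
  induction v with
  | nil => simp
  | cons a v ih => rw [List.cons_append, ws_cons, ih, ← mul_assoc, ← ws_cons]

theorem ws_flatMap {ι : Type} (l : List ι) (W : ι → List α) :
    ws (l.flatMap W) = (l.map fun i => ws (W i)).prod := by
  induction l with
  | nil => simp
  | cons i l ih => simp [ws_append, ih]

/-- Power of a word. -/
def wpow (w : List α) (n : ℕ) : List α := (List.replicate n w).flatten

theorem ws_wpow (w : List α) (n : ℕ) : ws (wpow w n) = ws w ^ n := by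
  induction n with
  | zero => simp [wpow]
  | succ n ih =>
    rw [pow_succ', ← ih, ← ws_append]; simp [wpow, List.replicate_succ]

theorem ws_replicate (a : α) (n : ℕ) : ws (List.replicate n a) = ws [a] ^ n := by
  induction n with
  | zero => simp
  | succ n ih => rw [List.replicate_succ, ws_cons, ih, pow_succ']

/-- The Ore condition, by the Thue-Morse trick. -/
theorem ore (t : ℕ) (a b : List α) : ∃ c d : List α, Eqv t (ws (a ++ c)) (ws (b ++ d)) := by
  induction t with
  | zero =>
    exact ⟨[], [], fun u hu => by
      have : u = [] := List.length_eq_zero_iff.1 (by omega)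
      subst this; simp⟩
  | succ t ih =>
    obtain ⟨c, d, h⟩ := ih
    have h1 := Sh.of_eqv (ws_one _) h
    refine ⟨c ++ (b ++ d), d ++ (a ++ c), ?_⟩
    rw [← List.append_assoc, ← List.append_assoc b d, ws_append (a ++ c), ws_append (b ++ d)]
    exact (h1.mul h1.symm).eqv_succ fun u _ => by simp

/-- `g` is, up to every degree, a quotient of two words. -/
def Fr (g : Ser α) : Prop := ∀ t, ∃ R W : List α, Eqv t (g * ws R) (ws W)

theorem Fr.one {g : Ser α} (h : Fr g) : g [] = 1 := by
  obtain ⟨R, W, h⟩ := h 0
  simpa using h [] le_rfl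

theorem Fr.ws (w : List α) : Fr (ws w) := fun t => ⟨[], w, by simpa using Eqv.refl _ _⟩

theorem Fr.mul {f g : Ser α} (hf : Fr f) (hg : Fr g) : Fr (f * g) := by
  intro t
  obtain ⟨R1, W1, h1⟩ := hf t
  obtain ⟨R2, W2, h2⟩ := hg t
  obtain ⟨c, d, h3⟩ := ore t W2 R1
  refine ⟨R2 ++ c, W1 ++ d, ?_⟩
  rw [ws_append] at h3
  rw [ws_append, ws_append, mul_assoc, ← mul_assoc g]
  refine ((Eqv.refl t f).mul ((h2.mul (Eqv.refl _ _)).trans h3)).trans ?_
  rw [ws_append, ← mul_assoc]
  exact h1.mul (Eqv.refl _ _)

theorem Fr.pow {f : Ser α} (hf : Fr f) (n : ℕ) : Fr (f ^ n) := by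
  induction n with
  | zero => simpa using Fr.ws ([] : List α)
  | succ n ih => rw [pow_succ]; exact ih.mul hf

theorem Fr.listProd {ι : Type} (l : List ι) (f : ι → Ser α) (h : ∀ i ∈ l, Fr (f i)) :
    Fr (l.map f).prod := by
  induction l with
  | nil => simpa using Fr.ws ([] : List α)
  | cons i l ih =>
    simp only [List.map_cons, List.prod_cons]
    exact (h i (by simp)).mul (ih fun j hj => h j (by simp [hj]))

end Words

/-- Change of alphabet along an injective map. -/
noncomputable def mapS (e : α → β) (f : Ser α) : Ser β := Function.extend (List.map e) f 0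

section Map
variable {e : α → β}

theorem mapS_map (he : Function.Injective e) (f : Ser α) (u : List α) :
    mapS e f (u.map e) = f u :=
  (List.map_injective_iff.2 he).extend_apply _ _ _

theorem mapS_out (f : Ser α) {v : List β} {b : β} (hb : b ∈ v) (hb' : ∀ a, e a ≠ b) :
    mapS e f v = 0 := by
  unfold mapS
  rw [Function.extend_apply']
  · rfl
  · rintro ⟨u, rfl⟩
    obtain ⟨a, _, ha⟩ := List.mem_map.1 hb
    exact hb' a ha

theorem map_or_out (e : α → β) (v : List β) : (∃ u : List α, v = u.map e) ∨ ∃ b ∈ v, ∀ a, e a ≠ b := by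
  induction v with
  | nil => exact Or.inl ⟨[], rfl⟩
  | cons b v ih =>
    by_cases hb : ∃ a, e a = b
    · obtain ⟨a, rfl⟩ := hb
      rcases ih with ⟨u, rfl⟩ | ⟨c, hc, hc'⟩
      · exact Or.inl ⟨a :: u, rfl⟩
      · exact Or.inr ⟨c, by simp [hc], hc'⟩
    · exact Or.inr ⟨b, by simp, fun a ha => hb ⟨a, ha⟩⟩

theorem mapS_nil (he : Function.Injective e) (f : Ser α) : mapS e f [] = f [] :=
  mapS_map he f []

theorem der_mapS (he : Function.Injective e) (f : Ser α) (a : α) :
    der (e a) (mapS e f) = mapS e (der a f) := by
  ext v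
  rcases map_or_out e v with ⟨u, rfl⟩ | ⟨c, hc, hc'⟩
  · rw [der_apply, ← List.map_cons, mapS_map he, mapS_map he, der_apply]
  · rw [der_apply, mapS_out f (List.mem_cons_of_mem _ hc) hc', mapS_out _ hc hc']

theorem der_mapS_out (f : Ser α) {b : β} (hb : ∀ a, e a ≠ b) : der b (mapS e f) = 0 := by
  ext v
  rw [der_apply, mapS_out f List.mem_cons_self hb, zero_apply]

theorem mapS_mul (he : Function.Injective e) (f g : Ser α) :
    mapS e (f * g) = mapS e f * mapS e g := by
  ext v
  induction v generalizing f with
  | nil => simp [mapS_nil he]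
  | cons b v ih =>
    by_cases hb : ∃ a, e a = b
    · obtain ⟨a, rfl⟩ := hb
      rw [mul_cons, der_mapS he, ← ih, mapS_nil he]
      rcases map_or_out e v with ⟨u, rfl⟩ | ⟨c, hc, hc'⟩
      · rw [← List.map_cons]
        simp only [mapS_map he, mul_cons]
      · simp [mapS_out _ hc hc', mapS_out _ (List.mem_cons_of_mem _ hc) hc']
    · have hb' : ∀ a, e a ≠ b := fun a ha => hb ⟨a, ha⟩
      rw [mul_cons, der_mapS_out _ hb', mapS_out _ List.mem_cons_self hb',
        mapS_out _ List.mem_cons_self hb']
      simp

theorem mapS_add (he : Function.Injective e) (f g : Ser α) :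
    mapS e (f + g) = mapS e f + mapS e g := by
  ext v
  rcases map_or_out e v with ⟨u, rfl⟩ | ⟨c, hc, hc'⟩
  · simp [mapS_map he]
  · simp [mapS_out _ hc hc']

theorem Eqv.mapS (he : Function.Injective e) {t : ℕ} {f g : Ser α} (h : Eqv t f g) :
    Eqv t (mapS e f) (mapS e g) := by
  intro v hv
  rcases map_or_out e v with ⟨u, rfl⟩ | ⟨c, hc, hc'⟩
  · rw [mapS_map he, mapS_map he, h u (by simpa using hv)]
  · rw [mapS_out _ hc hc', mapS_out _ hc hc']

theorem Sh.mapS (he : Function.Injective e) {t : ℕ} {f g z : Ser α} (h : Sh t f g z) :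
    Sh t (mapS e f) (mapS e g) (mapS e z) := by
  refine ⟨by rw [mapS_nil he, h.one], h.eqv.mapS he, fun v hv => ?_⟩
  rcases map_or_out e v with ⟨u, rfl⟩ | ⟨c, hc, hc'⟩
  · rw [mapS_map he, mapS_map he, mapS_map he, h.top u (by simpa using hv)]
  · simp [mapS_out _ hc hc']

variable [DecidableEq α] [DecidableEq β]

theorem occ_map (he : Function.Injective e) (w u : List α) :
    occ (w.map e) (u.map e) = occ w u := by
  induction w generalizing u with
  | nil => cases u <;> simp
  | cons a w ih =>
    cases u with
    | nil => simp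
    | cons b u =>
      rw [List.map_cons, List.map_cons, occ_cons, occ_cons, ← List.map_cons, ih, ih]
      simp [he.eq_iff]

theorem ws_map (he : Function.Injective e) (w : List α) : ws (w.map e) = mapS e (ws w) := by
  ext v
  rcases map_or_out e v with ⟨u, rfl⟩ | ⟨c, hc, hc'⟩
  · rw [mapS_map he, ws_apply, ws_apply, occ_map he]
  · rw [mapS_out _ hc hc', ws_apply, Nat.cast_eq_zero]
    by_contra h
    obtain ⟨a, _, ha⟩ := List.mem_map.1
      (((occ_pos_iff _ _).1 (Nat.pos_of_ne_zero h)).subset hc)
    exact hc' a ha

theorem Fr.mapS (he : Function.Injective e) {g : Ser α} (h : Fr g) : Fr (mapS e g) := by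
  intro t
  obtain ⟨R, W, h⟩ := h t
  refine ⟨R.map e, W.map e, ?_⟩
  rw [ws_map he, ws_map he, ← mapS_mul he]
  exact h.mapS he

end Map

end Pool.Agent.P.MP_26ce3f_co
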